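import Pool.Agent.Run7.h148.AX.Stm3

set_option autoImplicit false

open MeasureTheory Set Filter Topology
open scoped ENNReal ContDiff FourierTransform

namespace Pool.Agent.Run7.h148.AX

theorem cont_comp {V : E3 → E3} (hV : Continuous V) (j : Fin 3) : Continuous fun x => V x j :=
  (EuclideanSpace.proj j).continuous.comp hV

theorem pair_int {V φ : E3 → E3} (hV : Continuous V) (hφ : Test φ) :
    Integrable fun x => ∑ j, V x j * φ x j := by
  refine integrable_finsetSum _ fun j _ => ?_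
  refine Continuous.integrable_of_hasCompactSupport
    ((cont_comp hV j).mul (cont_comp hφ.1.continuous j)) ?_
  have h1 : HasCompactSupport fun x => φ x j :=
    hφ.2.comp_left (g := fun v : E3 => v j) rfl
  exact h1.mul_left

theorem t_FIN : S_TGT → S_INV → S_OSC → S_NSA → S_PHY → S_VVP → S_WDV → S_FIN := by
  intro hTGT hINV hOSC hNSA hPHY hVVP hWDV ν u0 m φ ε hν hu hax hdf hφ hε
  obtain ⟨A, hA, hAp⟩ := hTGT ν u0 m φ (ε / 2) hν hu hax hdf hφ (by positivity)
  obtain ⟨-, -, -, hVs, -, -, -⟩ := hVVP ν A hν hA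
  have hosc : ∀ᶠ n in atTop, ∀ i, |pair (wf ν A (VV ν A) n 0) (φ i)| < ε / 2 := by
    rw [eventually_all]
    intro i
    have h1 := hOSC ν A (VV ν A) (φ i) hν hA hVs (hφ i)
    have h2 := h1.abs
    rw [abs_zero] at h2
    exact h2.eventually (gt_mem_nhds (by positivity))
  obtain ⟨n1, hn1⟩ := eventually_atTop.1 hosc
  obtain ⟨n0, hn0⟩ := hNSA ν A ε hν hA hε
  obtain ⟨U, hUt, hUm, hUs, hU0, hUd⟩ := hn0 (max n0 n1) (le_max_left _ _)
  obtain ⟨p, hp⟩ := hPHY ν U hν hUt hUm hUs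
  refine ⟨U, fun t => phy (U t), p, hp, fun i => ?_, hUt, fun t ht => ⟨(hUs t ht).1, rfl⟩, hUd⟩
  have h0 : U 0 = gg ν A (max n0 n1) 0 := funext hU0
  have h1 : phy (U 0) = fun x => VV ν A x + wf ν A (VV ν A) (max n0 n1) 0 x := by
    rw [h0]
    exact hINV ν A hν hA _
  have hw : Continuous (wf ν A (VV ν A) (max n0 n1) 0) :=
    (hWDV ν A (VV ν A) hν hA hVs (max n0 n1) 0).2.1.continuous
  have h2 : pair (phy (U 0)) (φ i)
      = pair (VV ν A) (φ i) + pair (wf ν A (VV ν A) (max n0 n1) 0) (φ i) := by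
    rw [h1]
    unfold pair
    rw [← integral_add (pair_int hVs.continuous (hφ i)) (pair_int hw (hφ i))]
    refine integral_congr_ae (Eventually.of_forall fun x => ?_)
    simp only [PiLp.add_apply, add_mul, Finset.sum_add_distrib]
  show |pair (phy (U 0)) (φ i) - pair u0 (φ i)| ≤ ε
  rw [h2]
  have h3 := hAp i
  have h4 := (hn1 (max n0 n1) (le_max_right _ _) i).le
  calc |pair (VV ν A) (φ i) + pair (wf ν A (VV ν A) (max n0 n1) 0) (φ i) - pair u0 (φ i)|
      = |(pair (VV ν A) (φ i) - pair u0 (φ i)) + pair (wf ν A (VV ν A) (max n0 n1) 0) (φ i)| := by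
        congr 1; ring
    _ ≤ |pair (VV ν A) (φ i) - pair u0 (φ i)| + |pair (wf ν A (VV ν A) (max n0 n1) 0) (φ i)| :=
        abs_add_le _ _
    _ ≤ ε := by linarith

end Pool.Agent.Run7.h148.AX
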