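import Pool.Agent.Run7.h148.AX.Stm4
import Pool.Agent.Run7.h148.AX.FIN

set_option autoImplicit false

open MeasureTheory Set Filter Topology
open scoped ENNReal ContDiff FourierTransform

namespace Pool.Agent.Run7.h148.AX

theorem rc_sub (θ : ℝ) (v w : C3) : rc θ (v - w) = rc θ v - rc θ w := by
  funext k
  fin_cases k <;> simp [rc] <;> ring

theorem dt_sub (ξ : E3) (v w : C3) : dt ξ (v - w) = dt ξ v - dt ξ w := by
  simp [dt, mul_sub, Finset.sum_sub_distrib]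

theorem sym_sub {a b : E3 → C3} (ha : Sym a) (hb : Sym b) : Sym fun ξ => a ξ - b ξ := by
  refine ⟨fun ξ k => ?_, fun θ ξ => ?_, fun ξ => ?_⟩
  · simp only [Pi.sub_apply, ha.1 ξ k, hb.1 ξ k, map_sub]
  · simp only [ha.2.1 θ ξ, hb.2.1 θ ξ, rc_sub]
  · simp only [dt_sub, ha.2.2 ξ, hb.2.2 ξ, sub_zero]

theorem wk_meas (k : ℕ) : Measurable (wk k) := by
  unfold wk
  fun_prop

theorem nice_sub {a b : E3 → C3} (ha : Nice a) (hb : Nice b) : Nice fun ξ => a ξ - b ξ := by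
  refine ⟨ha.1.sub hb.1, fun k => ?_⟩
  obtain ⟨M, hM1, hM2⟩ := ha.2 k
  obtain ⟨M', hM1', hM2'⟩ := hb.2 k
  have hp : ∀ ξ, wk k ξ * ‖a ξ - b ξ‖ₑ ≤ wk k ξ * ‖a ξ‖ₑ + wk k ξ * ‖b ξ‖ₑ := fun ξ => by
    rw [← mul_add]
    exact mul_le_mul' le_rfl enorm_sub_le
  refine ⟨M + M', ?_, fun ξ => ?_⟩
  · calc (∫⁻ ξ, wk k ξ * ‖a ξ - b ξ‖ₑ) ≤ ∫⁻ ξ, (wk k ξ * ‖a ξ‖ₑ + wk k ξ * ‖b ξ‖ₑ) :=
          lintegral_mono hp
      _ = (∫⁻ ξ, wk k ξ * ‖a ξ‖ₑ) + ∫⁻ ξ, wk k ξ * ‖b ξ‖ₑ :=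
          lintegral_add_left ((wk_meas k).mul ha.1.enorm) _
      _ ≤ ((M + M' : NNReal) : ℝ≥0∞) := by
          rw [ENNReal.coe_add]; exact add_le_add hM1 hM1'
  · refine (hp ξ).trans ?_
    rw [ENNReal.coe_add]
    exact add_le_add (hM2 ξ) (hM2' ξ)

theorem nice_of_tame {a : ℝ → E3 → C3} (h : TameV a) : Nice (a 0) := by
  refine ⟨h.1.comp (measurable_const.prodMk measurable_id), fun k => ?_⟩
  obtain ⟨M, hM⟩ := h.2.2 k 0
  exact ⟨M, (hM 0 ⟨le_rfl, le_rfl⟩).1, (hM 0 ⟨le_rfl, le_rfl⟩).2⟩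

theorem t_FIB : S_TGT → S_INV → S_OSC → S_NSB → S_PHY → S_VVP → S_WDV → S_GB1 → S_FIB := by
  intro hTGT hINV hOSC hNSB hPHY hVVP hWDV hGB1 ν u0 m φ ε hν hu hax hdf hφ hε
  obtain ⟨A, hA, hAp⟩ := hTGT ν u0 m φ (ε / 2) hν hu hax hdf hφ (by positivity)
  obtain ⟨-, -, -, hVs, -, -, -⟩ := hVVP ν A hν hA
  have hosc : ∀ᶠ n in atTop, ∀ i, |pair (wf ν A (VV ν A) n 0) (φ i)| < ε / 2 := by
    rw [eventually_all]
    intro i
    have h1 := hOSC ν A (VV ν A) (φ i) hν hA hVs (hφ i)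
    have h2 := h1.abs
    rw [abs_zero] at h2
    exact h2.eventually (gt_mem_nhds (by positivity))
  obtain ⟨n1, hn1⟩ := eventually_atTop.1 hosc
  obtain ⟨δ, n0, hδ, hn0⟩ := hNSB ν A ε hν hA hε
  obtain ⟨hgT, -, hgS, -⟩ := hGB1 ν A hν hA (max n0 n1)
  refine ⟨gg ν A (max n0 n1) 0, δ, hδ, nice_of_tame hgT, hgS 0, fun i => ?_, fun w hw hws hwd => ?_⟩
  · have h1 : phy (gg ν A (max n0 n1) 0)
        = fun x => VV ν A x + wf ν A (VV ν A) (max n0 n1) 0 x := hINV ν A hν hA _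
    have hwc : Continuous (wf ν A (VV ν A) (max n0 n1) 0) :=
      (hWDV ν A (VV ν A) hν hA hVs (max n0 n1) 0).2.1.continuous
    have h2 : pair (phy (gg ν A (max n0 n1) 0)) (φ i)
        = pair (VV ν A) (φ i) + pair (wf ν A (VV ν A) (max n0 n1) 0) (φ i) := by
      rw [h1]
      unfold pair
      rw [← integral_add (pair_int hVs.continuous (hφ i)) (pair_int hwc (hφ i))]
      refine integral_congr_ae (Eventually.of_forall fun x => ?_)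
      simp only [PiLp.add_apply, add_mul, Finset.sum_add_distrib]
    rw [h2]
    have h3 := hAp i
    have h4 := (hn1 (max n0 n1) (le_max_right _ _) i).le
    calc |pair (VV ν A) (φ i) + pair (wf ν A (VV ν A) (max n0 n1) 0) (φ i) - pair u0 (φ i)|
        = |(pair (VV ν A) (φ i) - pair u0 (φ i)) + pair (wf ν A (VV ν A) (max n0 n1) 0) (φ i)| := by
          congr 1; ring
      _ ≤ |pair (VV ν A) (φ i) - pair u0 (φ i)| + |pair (wf ν A (VV ν A) (max n0 n1) 0) (φ i)| :=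
          abs_add_le _ _
      _ ≤ ε := by linarith
  · obtain ⟨U, hUt, hUm, hUs, hU0, hUd⟩ := hn0 (max n0 n1) (le_max_left _ _)
      (fun ξ => w ξ - gg ν A (max n0 n1) 0 ξ) (nice_sub hw (nice_of_tame hgT)) (sym_sub hws (hgS 0)) hwd
    obtain ⟨p, hp⟩ := hPHY ν U hν hUt hUm hUs
    refine ⟨U, p, hp, ?_, hUt, hUs, hUd⟩
    funext ξ
    rw [hU0 ξ]
    abel

end Pool.Agent.Run7.h148.AX
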