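import Pool.Agent.Run7.h148.AX.Stm5
import Pool.Agent.Run7.h148.AX.FIB

set_option autoImplicit false

open MeasureTheory Set Filter Topology
open scoped ENNReal ContDiff FourierTransform

namespace Pool.Agent.Run7.h148.AX

theorem rc_add (θ : ℝ) (v w : C3) : rc θ (v + w) = rc θ v + rc θ w := by
  funext k
  fin_cases k <;> simp [rc] <;> ring

theorem dt_add (ξ : E3) (v w : C3) : dt ξ (v + w) = dt ξ v + dt ξ w := by
  simp [dt, mul_add, Finset.sum_add_distrib]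

theorem sym_add {a b : E3 → C3} (ha : Sym a) (hb : Sym b) : Sym fun ξ => a ξ + b ξ := by
  refine ⟨fun ξ k => ?_, fun θ ξ => ?_, fun ξ => ?_⟩
  · simp only [Pi.add_apply, ha.1 ξ k, hb.1 ξ k, map_add]
  · simp only [ha.2.1 θ ξ, hb.2.1 θ ξ, rc_add]
  · simp only [dt_add, ha.2.2 ξ, hb.2.2 ξ, add_zero]

theorem nice_add {a b : E3 → C3} (ha : Nice a) (hb : Nice b) : Nice fun ξ => a ξ + b ξ := by
  refine ⟨ha.1.add hb.1, fun k => ?_⟩
  obtain ⟨M, hM1, hM2⟩ := ha.2 k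
  obtain ⟨M', hM1', hM2'⟩ := hb.2 k
  have hp : ∀ ξ, wk k ξ * ‖a ξ + b ξ‖ₑ ≤ wk k ξ * ‖a ξ‖ₑ + wk k ξ * ‖b ξ‖ₑ := fun ξ => by
    rw [← mul_add]
    exact mul_le_mul' le_rfl (enorm_add_le _ _)
  refine ⟨M + M', ?_, fun ξ => ?_⟩
  · calc (∫⁻ ξ, wk k ξ * ‖a ξ + b ξ‖ₑ) ≤ ∫⁻ ξ, (wk k ξ * ‖a ξ‖ₑ + wk k ξ * ‖b ξ‖ₑ) :=
          lintegral_mono hp
      _ = (∫⁻ ξ, wk k ξ * ‖a ξ‖ₑ) + ∫⁻ ξ, wk k ξ * ‖b ξ‖ₑ :=
          lintegral_add_left ((wk_meas k).mul ha.1.enorm) _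
      _ ≤ ((M + M' : NNReal) : ℝ≥0∞) := by
          rw [ENNReal.coe_add]; exact add_le_add hM1 hM1'
  · refine (hp ξ).trans ?_
    rw [ENNReal.coe_add]
    exact add_le_add (hM2 ξ) (hM2' ξ)

theorem nice_moment {a : E3 → C3} (ha : Nice a) (k : ℕ) : (∫⁻ ξ, wk k ξ * ‖a ξ‖ₑ) < ⊤ := by
  obtain ⟨M, hM, -⟩ := ha.2 k
  exact hM.trans_lt ENNReal.coe_lt_top

theorem nice_int {a : E3 → C3} (ha : Nice a) (k : Fin 3) : Integrable fun ξ => a ξ k := by
  refine ⟨((measurable_pi_apply k).comp ha.1).aestronglyMeasurable, ?_⟩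
  have h1 := nice_moment ha 0
  refine lt_of_le_of_lt (lintegral_mono fun ξ => ?_) h1
  simp only [wk, pow_zero, ENNReal.ofReal_one, one_mul]
  exact enorm_le_iff_norm_le.2 (norm_le_pi_norm (a ξ) k)

lemma inv_add {f g : E3 → ℂ} (hf : Integrable f) (hg : Integrable g) (x : E3) :
    𝓕⁻ (fun ξ => f ξ + g ξ) x = 𝓕⁻ f x + 𝓕⁻ g x := by
  rw [Real.fourierInv_eq_fourier_neg, Real.fourierInv_eq_fourier_neg,
    Real.fourierInv_eq_fourier_neg, Real.fourier_eq, Real.fourier_eq, Real.fourier_eq,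
    ← integral_add ((Real.fourierIntegral_convergent_iff (-x)).2 hf)
      ((Real.fourierIntegral_convergent_iff (-x)).2 hg)]
  simp only [smul_add]

theorem phy_add {a b : E3 → C3} (ha : Nice a) (hb : Nice b) (x : E3) :
    phy (fun ξ => a ξ + b ξ) x = phy a x + phy b x := by
  have h1 : ∀ k, 𝓕⁻ (fun ξ => a ξ k + b ξ k) x = 𝓕⁻ (fun ξ => a ξ k) x + 𝓕⁻ (fun ξ => b ξ k) x :=
    fun k => inv_add (nice_int ha k) (nice_int hb k) x
  have h2 : ∀ k, phy (fun ξ => a ξ + b ξ) x k = phy a x k + phy b x k := fun k => by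
    show (𝓕⁻ (fun ξ => a ξ k + b ξ k) x).re = (𝓕⁻ (fun ξ => a ξ k) x).re + (𝓕⁻ (fun ξ => b ξ k) x).re
    rw [h1 k, Complex.add_re]
  exact PiLp.ext h2

theorem rt_sub (θ : ℝ) (x y : E3) : rt θ (x - y) = rt θ x - rt θ y := by
  ext k
  fin_cases k <;> simp [rt] <;> ring

theorem test_comp_cont {φ : E3 → E3} (hφ : Test φ) (j : Fin 3) : Continuous fun x => φ x j :=
  cont_comp hφ.1.continuous j

theorem test_comp_supp {φ : E3 → E3} (hφ : Test φ) (j : Fin 3) :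
    HasCompactSupport fun x => φ x j :=
  hφ.2.comp_left (g := fun v : E3 => v j) rfl

theorem loc_comp {u : E3 → E3} (hu : LocallyIntegrable u) (j : Fin 3) :
    LocallyIntegrable fun x => u x j := by
  intro x
  obtain ⟨s, hs, hi⟩ := hu x
  exact ⟨s, hs, (EuclideanSpace.proj j : E3 →L[ℝ] ℝ).integrable_comp hi⟩

theorem loc_mul {f g : E3 → ℝ} (hf : LocallyIntegrable f) (hg : Continuous g)
    (hc : HasCompactSupport g) : Integrable fun x => f x * g x := by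
  have h := hf.integrable_smul_left_of_hasCompactSupport hg hc
  refine h.congr (Eventually.of_forall fun x => ?_)
  simp [mul_comm]

theorem pair_int' {V φ : E3 → E3} (hV : LocallyIntegrable V) (hφ : Test φ) :
    Integrable fun x => ∑ j, V x j * φ x j :=
  integrable_finsetSum _ fun j _ => loc_mul (loc_comp hV j) (test_comp_cont hφ j)
    (test_comp_supp hφ j)

theorem pair_add {V W φ : E3 → E3} (hV : LocallyIntegrable V) (hW : LocallyIntegrable W)
    (hφ : Test φ) : pair (fun x => V x + W x) φ = pair V φ + pair W φ := by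
  unfold pair
  rw [← integral_add (pair_int' hV hφ) (pair_int' hW hφ)]
  refine integral_congr_ae (Eventually.of_forall fun x => ?_)
  simp only [PiLp.add_apply, add_mul, Finset.sum_add_distrib]

theorem pair_sub {V W φ : E3 → E3} (hV : LocallyIntegrable V) (hW : LocallyIntegrable W)
    (hφ : Test φ) : pair (fun x => V x - W x) φ = pair V φ - pair W φ := by
  unfold pair
  rw [← integral_sub (pair_int' hV hφ) (pair_int' hW hφ)]
  refine integral_congr_ae (Eventually.of_forall fun x => ?_)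
  simp only [PiLp.sub_apply, sub_mul, Finset.sum_sub_distrib]

theorem pd_cont {q : E3 → ℝ} (hq : Cc q) (j : Fin 3) : Continuous (pd j q) := by
  have h1 : ContDiff ℝ 1 q := hq.1.of_le (by exact_mod_cast le_top)
  exact (h1.continuous_fderiv one_ne_zero).clm_apply continuous_const

theorem pd_supp {q : E3 → ℝ} (hq : Cc q) (j : Fin 3) : HasCompactSupport (pd j q) := by
  have h := hq.2.fderiv (𝕜 := ℝ)
  exact h.comp_left (g := fun L : E3 →L[ℝ] ℝ => L (EuclideanSpace.single j 1)) rfl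

theorem wdf_sub {u V : E3 → E3} (hu : LocallyIntegrable u) (hV : LocallyIntegrable V)
    (h1 : WDf u) (h2 : WDf V) : WDf fun x => u x - V x := by
  intro q hq
  have i1 : Integrable fun x => ∑ j, u x j * pd j q x :=
    integrable_finsetSum _ fun j _ => loc_mul (loc_comp hu j) (pd_cont hq j) (pd_supp hq j)
  have i2 : Integrable fun x => ∑ j, V x j * pd j q x :=
    integrable_finsetSum _ fun j _ => loc_mul (loc_comp hV j) (pd_cont hq j) (pd_supp hq j)
  have h3 : (∫ x, ∑ j, (u x - V x) j * pd j q x)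
      = (∫ x, ∑ j, u x j * pd j q x) - ∫ x, ∑ j, V x j * pd j q x := by
    rw [← integral_sub i1 i2]
    refine integral_congr_ae (Eventually.of_forall fun x => ?_)
    simp only [PiLp.sub_apply, sub_mul, Finset.sum_sub_distrib]
  show (∫ x, ∑ j, (u x - V x) j * pd j q x) = 0
  rw [h3, h1 q hq, h2 q hq, sub_zero]

theorem t_FIC : S_TGT → S_INV → S_OSC → S_NSC → S_PHY → S_VVP → S_WDV → S_GB1 → S_FI3 → S_WDP →
    S_FIC := by
  intro hTGT hINV hOSC hNSC hPHY hVVP hWDV hGB1 hFI3 hWDP ν u0 V m φ ε hν hu hax hdf hV hφ hε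
  have hV0 : Nice (V 0) := nice_of_tame hV.1
  have hVS : Sym (V 0) := hV.2.2.1 0 le_rfl
  obtain ⟨-, f2, f3, f4⟩ := hFI3 (V 0) hV0.1 (nice_moment hV0)
  have hVA : Axi (phy (V 0)) := f2 hVS.1 hVS.2.1
  have hVD := f3 hVS.1 hVS.2.2
  have hVL : LocallyIntegrable (phy (V 0)) := f4.continuous.locallyIntegrable
  have hVW : WDf (phy (V 0)) := hWDP _ f4 hVD
  obtain ⟨A, hA, hAp⟩ := hTGT ν (fun x => u0 x - phy (V 0) x) m φ (ε / 2) hν (hu.sub hVL)
    (fun θ x => by simp only [hax θ x, hVA θ x, rt_sub]) (wdf_sub hu hVL hdf hVW) hφ (by positivity)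
  obtain ⟨-, -, -, hVs, -, -, -⟩ := hVVP ν A hν hA
  have hosc : ∀ᶠ n in atTop, ∀ i, |pair (wf ν A (VV ν A) n 0) (φ i)| < ε / 2 := by
    rw [eventually_all]
    intro i
    have h1 := hOSC ν A (VV ν A) (φ i) hν hA hVs (hφ i)
    have h2 := h1.abs
    rw [abs_zero] at h2
    exact h2.eventually (gt_mem_nhds (by positivity))
  obtain ⟨n1, hn1⟩ := eventually_atTop.1 hosc
  obtain ⟨δ, n0, hδ, hn0⟩ := hNSC ν A ε V hν hA hε hV
  obtain ⟨n, hnn0, hnn1⟩ : ∃ n, n0 ≤ n ∧ n1 ≤ n := ⟨max n0 n1, le_max_left _ _, le_max_right _ _⟩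
  obtain ⟨hgT, -, hgS, -⟩ := hGB1 ν A hν hA n
  have hgN : Nice (gg ν A n 0) := nice_of_tame hgT
  refine ⟨fun ξ => gg ν A n 0 ξ + V 0 ξ, δ, hδ, nice_add hgN hV0, sym_add (hgS 0) hVS,
    fun i => ?_, fun w hw hws hwd => ?_⟩
  · have h1 : phy (gg ν A n 0) = fun x => VV ν A x + wf ν A (VV ν A) n 0 x := hINV ν A hν hA _
    have hwc : Continuous (wf ν A (VV ν A) n 0) := (hWDV ν A (VV ν A) hν hA hVs n 0).2.1.continuous
    have hwL : LocallyIntegrable (wf ν A (VV ν A) n 0) := hwc.locallyIntegrable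
    have hVVL : LocallyIntegrable (VV ν A) := hVs.continuous.locallyIntegrable
    have h0 : phy (fun ξ => gg ν A n 0 ξ + V 0 ξ)
        = fun x => (VV ν A x + wf ν A (VV ν A) n 0 x) + phy (V 0) x := by
      funext x
      rw [phy_add hgN hV0 x, h1]
    have h2 : pair (phy fun ξ => gg ν A n 0 ξ + V 0 ξ) (φ i)
        = pair (VV ν A) (φ i) + pair (wf ν A (VV ν A) n 0) (φ i) + pair (phy (V 0)) (φ i) := by
      rw [h0, pair_add (V := fun x => VV ν A x + wf ν A (VV ν A) n 0 x) (hVVL.add hwL) hVL (hφ i),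
        pair_add hVVL hwL (hφ i)]
    have h3 := hAp i
    rw [pair_sub hu hVL (hφ i)] at h3
    have h4 := (hn1 n hnn1 i).le
    rw [h2]
    calc |pair (VV ν A) (φ i) + pair (wf ν A (VV ν A) n 0) (φ i) + pair (phy (V 0)) (φ i)
          - pair u0 (φ i)|
        = |(pair (VV ν A) (φ i) - (pair u0 (φ i) - pair (phy (V 0)) (φ i)))
          + pair (wf ν A (VV ν A) n 0) (φ i)| := by
          congr 1; ring
      _ ≤ |pair (VV ν A) (φ i) - (pair u0 (φ i) - pair (phy (V 0)) (φ i))|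
          + |pair (wf ν A (VV ν A) n 0) (φ i)| := abs_add_le _ _
      _ ≤ ε := by linarith
  · obtain ⟨U, hUt, hUm, hUs, hU0, hUd⟩ := hn0 n hnn0
      (fun ξ => w ξ - (gg ν A n 0 ξ + V 0 ξ)) (nice_sub hw (nice_add hgN hV0))
      (sym_sub hws (sym_add (hgS 0) hVS)) hwd
    obtain ⟨p, hp⟩ := hPHY ν U hν hUt hUm hUs
    refine ⟨U, p, hp, ?_, hUt, hUs, hUd⟩
    funext ξ
    rw [hU0 ξ]
    abel

end Pool.Agent.Run7.h148.AX
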