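import Pool.Agent.Run7.h148.AX.Stm2

set_option autoImplicit false

open MeasureTheory Set Filter Topology
open scoped ENNReal ContDiff FourierTransform

namespace Pool.Agent.Run7.h466.AX

open Pool.Agent.Run7.h148.AX

theorem dt_smul (c : ℝ) (ξ : E3) (v : C3) : dt ξ (c • v) = c • dt ξ v := by
  unfold dt
  rw [Finset.smul_sum]
  refine Finset.sum_congr rfl fun j _ => ?_
  simp only [Pi.smul_apply, Complex.real_smul]
  ring

theorem lp_smul (c : ℝ) (ξ : E3) (v : C3) :
    h148.AX.lp ξ (c • v) = c • h148.AX.lp ξ v := by
  funext k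
  simp only [h148.AX.lp, Pi.smul_apply, dt_smul, Complex.real_smul]
  ring

theorem t_NLS : S_NLS := by
  intro c a b ξ
  constructor
  · unfold nl
    have h : (fun η : E3 => dt ξ ((fun η => c • a η) (ξ - η)) • b η)
        = fun η => c • (dt ξ (a (ξ - η)) • b η) := by
      funext η
      simp only [dt_smul, smul_assoc]
    rw [h, integral_smul, lp_smul, smul_comm]
  · unfold nl
    have h : (fun η : E3 => dt ξ (a (ξ - η)) • ((fun η => c • b η) η))
        = fun η => c • (dt ξ (a (ξ - η)) • b η) := by
      funext η
      simp only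
      rw [smul_comm]
    rw [h, integral_smul, lp_smul, smul_comm]

end Pool.Agent.Run7.h466.AX

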