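import Pool.Agent.Run7.h148.AX.Stm2

set_option autoImplicit false

open MeasureTheory Set Filter Topology
open scoped ENNReal ContDiff FourierTransform

namespace Pool.Agent.Run7.h466.AX

open Pool.Agent.Run7.h148.AX

/-- axisymmetric triple of functions -/
def Ax3 (h : Fin 3 → E3 → ℝ) : Prop := ∀ θ x,
  h 0 (rt θ x) = Real.cos θ * h 0 x - Real.sin θ * h 1 x ∧
  h 1 (rt θ x) = Real.sin θ * h 0 x + Real.cos θ * h 1 x ∧ h 2 (rt θ x) = h 2 x

/-- invariant function -/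
def Inv (f : E3 → ℝ) : Prop := ∀ θ x, f (rt θ x) = f x

theorem rt_add (θ : ℝ) (x y : E3) : rt θ (x + y) = rt θ x + rt θ y := by
  ext k
  fin_cases k <;> simp [rt] <;> ring

theorem rt_smul (θ c : ℝ) (x : E3) : rt θ (c • x) = c • rt θ x := by
  ext k
  fin_cases k <;> simp [rt] <;> ring

noncomputable def rtL (θ : ℝ) : E3 →L[ℝ] E3 :=
  LinearMap.toContinuousLinearMap
    { toFun := rt θ, map_add' := rt_add θ, map_smul' := rt_smul θ }

theorem rtL_apply (θ : ℝ) (x : E3) : rtL θ x = rt θ x := rfl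

theorem rt_e0 (θ : ℝ) : rt θ (EuclideanSpace.single 0 1)
    = Real.cos θ • EuclideanSpace.single (0 : Fin 3) (1 : ℝ)
      + Real.sin θ • EuclideanSpace.single (1 : Fin 3) (1 : ℝ) := by
  ext k
  fin_cases k <;> simp [rt]

theorem rt_e1 (θ : ℝ) : rt θ (EuclideanSpace.single 1 1)
    = (-Real.sin θ) • EuclideanSpace.single (0 : Fin 3) (1 : ℝ)
      + Real.cos θ • EuclideanSpace.single (1 : Fin 3) (1 : ℝ) := by
  ext k
  fin_cases k <;> simp [rt]

theorem rt_e2 (θ : ℝ) : rt θ (EuclideanSpace.single 2 1)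
    = EuclideanSpace.single (2 : Fin 3) (1 : ℝ) := by
  ext k
  fin_cases k <;> simp [rt]

theorem pd_comp {f : E3 → ℝ} (hf : Differentiable ℝ f) (θ : ℝ) (x : E3) :
    pd 0 (fun y => f (rt θ y)) x
      = Real.cos θ * pd 0 f (rt θ x) + Real.sin θ * pd 1 f (rt θ x) ∧
    pd 1 (fun y => f (rt θ y)) x
      = -Real.sin θ * pd 0 f (rt θ x) + Real.cos θ * pd 1 f (rt θ x) ∧
    pd 2 (fun y => f (rt θ y)) x = pd 2 f (rt θ x) := by
  have h1 : HasFDerivAt (fun y => f (rt θ y)) ((fderiv ℝ f (rt θ x)).comp (rtL θ)) x := by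
    have h2 : HasFDerivAt f (fderiv ℝ f (rtL θ x)) (rtL θ x) := (hf _).hasFDerivAt
    exact h2.comp x (rtL θ).hasFDerivAt
  refine ⟨?_, ?_, ?_⟩
  · unfold pd
    rw [h1.fderiv, ContinuousLinearMap.comp_apply, rtL_apply, rt_e0, map_add, map_smul, map_smul]
    simp
  · unfold pd
    rw [h1.fderiv, ContinuousLinearMap.comp_apply, rtL_apply, rt_e1, map_add, map_smul, map_smul]
    simp
  · unfold pd
    rw [h1.fderiv, ContinuousLinearMap.comp_apply, rtL_apply, rt_e2]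

theorem pd_lin {f g : E3 → ℝ} (hf : Differentiable ℝ f) (hg : Differentiable ℝ g) (a b : ℝ)
    (j : Fin 3) (x : E3) : pd j (fun y => a * f y + b * g y) x = a * pd j f x + b * pd j g x := by
  unfold pd
  have h : HasFDerivAt (fun y => a * f y + b * g y) (a • fderiv ℝ f x + b • fderiv ℝ g x) x :=
    ((hf x).hasFDerivAt.const_mul a).add ((hg x).hasFDerivAt.const_mul b)
  rw [h.fderiv]
  simp

/-- the nine relations -/
theorem nine {h : Fin 3 → E3 → ℝ} (hd : ∀ k, Differentiable ℝ (h k)) (ha : Ax3 h) (θ : ℝ)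
    (x : E3) :
    (∀ l, pd l (fun y => h 0 (rt θ y)) x = Real.cos θ * pd l (h 0) x - Real.sin θ * pd l (h 1) x) ∧
    (∀ l, pd l (fun y => h 1 (rt θ y)) x = Real.sin θ * pd l (h 0) x + Real.cos θ * pd l (h 1) x) ∧
    (∀ l, pd l (fun y => h 2 (rt θ y)) x = pd l (h 2) x) := by
  refine ⟨fun l => ?_, fun l => ?_, fun l => ?_⟩
  · have e : (fun y => h 0 (rt θ y)) = fun y => Real.cos θ * h 0 y + (-Real.sin θ) * h 1 y := by
      funext y
      rw [(ha θ y).1]; ring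
    rw [e, pd_lin (hd 0) (hd 1)]; ring
  · have e : (fun y => h 1 (rt θ y)) = fun y => Real.sin θ * h 0 y + Real.cos θ * h 1 y := by
      funext y
      rw [(ha θ y).2.1]
    rw [e, pd_lin (hd 0) (hd 1)]
  · have e : (fun y => h 2 (rt θ y)) = h 2 := by
      funext y
      rw [(ha θ y).2.2]
    rw [e]

theorem pd2_ax {h : Fin 3 → E3 → ℝ} (hd : ∀ k, Differentiable ℝ (h k)) (ha : Ax3 h) :
    Ax3 (fun k => pd 2 (h k)) := by
  intro θ x
  obtain ⟨n0, n1, n2⟩ := nine hd ha θ x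
  obtain ⟨a0, a1, a2⟩ := pd_comp (hd 0) θ x
  obtain ⟨b0, b1, b2⟩ := pd_comp (hd 1) θ x
  obtain ⟨c0, c1, c2⟩ := pd_comp (hd 2) θ x
  refine ⟨?_, ?_, ?_⟩
  · show pd 2 (h 0) (rt θ x) = _
    rw [← a2, n0]
  · show pd 2 (h 1) (rt θ x) = _
    rw [← b2, n1]
  · show pd 2 (h 2) (rt θ x) = _
    rw [← c2, n2]

theorem div_inv {h : Fin 3 → E3 → ℝ} (hd : ∀ k, Differentiable ℝ (h k)) (ha : Ax3 h) :
    Inv (fun x => ∑ i, pd i (h i) x) := by
  intro θ x
  obtain ⟨n0, n1, n2⟩ := nine hd ha θ x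
  obtain ⟨a0, a1, a2⟩ := pd_comp (hd 0) θ x
  obtain ⟨b0, b1, b2⟩ := pd_comp (hd 1) θ x
  obtain ⟨c0, c1, c2⟩ := pd_comp (hd 2) θ x
  rw [n0] at a0 a1
  rw [n1] at b0 b1
  rw [n2] at c2
  have hcs := Real.sin_sq_add_cos_sq θ
  simp only [Fin.sum_univ_three]
  rw [← c2]
  have e0 : pd 0 (h 0) (rt θ x) = Real.cos θ * (Real.cos θ * pd 0 (h 0) x - Real.sin θ * pd 0 (h 1) x)
      - Real.sin θ * (Real.cos θ * pd 1 (h 0) x - Real.sin θ * pd 1 (h 1) x) := by
    linear_combination (-pd 0 (h 0) (rt θ x)) * hcs - Real.cos θ * a0 + Real.sin θ * a1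
  have e1 : pd 1 (h 1) (rt θ x) = Real.sin θ * (Real.sin θ * pd 0 (h 0) x + Real.cos θ * pd 0 (h 1) x)
      + Real.cos θ * (Real.sin θ * pd 1 (h 0) x + Real.cos θ * pd 1 (h 1) x) := by
    linear_combination (-pd 1 (h 1) (rt θ x)) * hcs - Real.sin θ * b0 - Real.cos θ * b1
  rw [e0, e1]
  linear_combination (pd 0 (h 0) x + pd 1 (h 1) x) * hcs

theorem adv_ax {h : Fin 3 → E3 → ℝ} (hd : ∀ k, Differentiable ℝ (h k)) (ha : Ax3 h) :
    Ax3 (fun k x => ∑ j, h j x * pd j (h k) x) := by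
  intro θ x
  obtain ⟨n0, n1, n2⟩ := nine hd ha θ x
  obtain ⟨a0, a1, a2⟩ := pd_comp (hd 0) θ x
  obtain ⟨b0, b1, b2⟩ := pd_comp (hd 1) θ x
  obtain ⟨c0, c1, c2⟩ := pd_comp (hd 2) θ x
  rw [n0] at a0 a1 a2
  rw [n1] at b0 b1 b2
  rw [n2] at c0 c1 c2
  obtain ⟨h0, h1, h2⟩ := ha θ x
  simp only [Fin.sum_univ_three, h0, h1, h2]
  refine ⟨?_, ?_, ?_⟩
  · linear_combination (-h 0 x) * a0 - h 1 x * a1 - h 2 x * a2
  · linear_combination (-h 0 x) * b0 - h 1 x * b1 - h 2 x * b2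
  · linear_combination (-h 0 x) * c0 - h 1 x * c1 - h 2 x * c2

theorem Ax3.add {g h : Fin 3 → E3 → ℝ} (hg : Ax3 g) (hh : Ax3 h) :
    Ax3 (fun k x => g k x + h k x) := by
  intro θ x
  obtain ⟨a, b, c⟩ := hg θ x
  obtain ⟨a', b', c'⟩ := hh θ x
  refine ⟨?_, ?_, ?_⟩ <;> simp only [a, b, c, a', b', c'] <;> ring

theorem Ax3.mul {h : Fin 3 → E3 → ℝ} {f : E3 → ℝ} (hf : Inv f) (hh : Ax3 h) :
    Ax3 (fun k x => f x * h k x) := by
  intro θ x
  obtain ⟨a', b', c'⟩ := hh θ x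
  refine ⟨?_, ?_, ?_⟩ <;> simp only [hf θ x, a', b', c'] <;> ring

theorem ax_e2 {f : E3 → ℝ} (hf : Inv f) : Ax3 (fun k x => if k = 2 then f x else 0) := by
  intro θ x
  refine ⟨?_, ?_, ?_⟩ <;> simp [hf θ x]

theorem Ax3.congr {g h : Fin 3 → E3 → ℝ} (hg : Ax3 g) (e : ∀ k x, h k x = g k x) : Ax3 h := by
  intro θ x
  simp only [e]
  exact hg θ x

theorem inv_z (F : ℝ → ℝ) : Inv (fun x => F (x 2)) := by
  intro θ x
  have : (rt θ x) 2 = x 2 := by simp [rt]
  show F ((rt θ x) 2) = F (x 2)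
  rw [this]

theorem inv_const (c : ℝ) : Inv (fun _ => c) := fun _ _ => rfl

/-- a block is axisymmetric -/
theorem block_ax {h : Fin 3 → E3 → ℝ} (hd : ∀ k, Differentiable ℝ (h k)) (ha : Ax3 h)
    (F G : ℝ → ℝ) :
    Ax3 (fun k x => h k x * F (x 2) + G (x 2) *
      (pd 2 (h k) x - if k = 2 then ∑ i, pd i (h i) x else 0)) := by
  have h1 : Ax3 (fun k x => F (x 2) * h k x) := Ax3.mul (inv_z F) ha
  have h2 : Ax3 (fun k x => G (x 2) * pd 2 (h k) x) := Ax3.mul (inv_z G) (pd2_ax hd ha)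
  have h3 : Ax3 (fun k x => G (x 2) * ((-1 : ℝ) * (if k = 2 then ∑ i, pd i (h i) x else 0))) :=
    Ax3.mul (inv_z G) (Ax3.mul (inv_const (-1)) (ax_e2 (div_inv hd ha)))
  refine ((h1.add h2).add h3).congr fun k x => ?_
  ring

theorem pd_smooth {f : E3 → ℝ} (hf : ContDiff ℝ ∞ f) (j : Fin 3) : ContDiff ℝ ∞ (pd j f) := by
  unfold pd
  exact (hf.fderiv_right (m := ∞) (by simp)).clm_apply contDiff_const

theorem comp_smooth {A : E3 → E3} (hA : ContDiff ℝ ∞ A) (k : Fin 3) :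
    ContDiff ℝ ∞ (fun x => A x k) := by
  have := (contDiff_piLp (𝕜 := ℝ) (p := 2)).1 hA
  exact this k

theorem axi3 {A : E3 → E3} (hA : Axi A) : Ax3 (fun k x => A x k) := by
  intro θ x
  have h := hA θ x
  refine ⟨?_, ?_, ?_⟩
  · show (A (rt θ x)) 0 = _
    rw [h]
    simp [rt]
  · show (A (rt θ x)) 1 = _
    rw [h]
    simp [rt]
  · show (A (rt θ x)) 2 = _
    rw [h]
    simp [rt]

theorem FA_smooth {A : E3 → E3} (hA : ContDiff ℝ ∞ A) (k : Fin 3) : ContDiff ℝ ∞ (FA A k) := by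
  have hc := comp_smooth hA
  unfold FA dvA
  refine ContDiff.sub ?_ ?_
  · exact ContDiff.sum fun j _ => (hc j).mul (pd_smooth (hc k) j)
  · exact (ContDiff.sum fun j _ => pd_smooth (hc j) j).mul (hc k)

theorem FA_ax {A : E3 → E3} (hA : ContDiff ℝ ∞ A) (ha : Axi A) : Ax3 (FA A) := by
  have hc := comp_smooth hA
  have hd : ∀ k, Differentiable ℝ (fun x => A x k) := fun k => (hc k).differentiable (by simp)
  have h3 := axi3 ha
  have h1 := adv_ax hd h3
  have h2 : Ax3 (fun k x => (-(∑ i, pd i (fun y => A y i) x)) * A x k) := by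
    refine Ax3.mul (f := fun x => -(∑ i, pd i (fun y => A y i) x)) ?_ h3
    intro θ x
    have := div_inv hd h3 θ x
    simp only at this
    show -(∑ i, pd i (fun y => A y i) (rt θ x)) = -(∑ i, pd i (fun y => A y i) x)
    rw [this]
  refine (h1.add h2).congr fun k x => ?_
  unfold FA dvA
  ring

theorem t_WAX : S_WAX := by
  intro ν A V hν hA hV haV n t
  obtain ⟨hsA, -, hA2, haA⟩ := hA
  have hc := comp_smooth hsA
  have hcV := comp_smooth hV
  have h3 := axi3 haA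
  have h3V := axi3 haV
  have hd : ∀ k, Differentiable ℝ (fun x => A x k) := fun k => (hc k).differentiable (by simp)
  -- the three amplitudes
  have c1 : Ax3 (fun k => Hc ν A k n t) := by
    refine (Ax3.mul (inv_const (NN n * Real.exp (-ta ν n t))) h3).congr fun k x => ?_
    rfl
  have s1 : ∀ k, ContDiff ℝ ∞ (Hc ν A k n t) := fun k => contDiff_const.mul (hc k)
  have c2 : Ax3 (fun k => Hs ν A V k n t) := by
    have e1 : Ax3 (fun k x => (ta ν n t) * pd 2 (fun y => A y k) x) :=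
      Ax3.mul (inv_const _) (pd2_ax hd h3)
    have iV : Inv (fun x => 1 / (4 * ν) * Real.exp (-(2 * ta ν n t)) * V x 2) := by
      intro θ x
      have := (h3V θ x).2.2
      simp only at this
      show 1 / (4 * ν) * Real.exp (-(2 * ta ν n t)) * V (rt θ x) 2 = _
      rw [this]
    have e2 := Ax3.mul iV h3
    refine (Ax3.mul (inv_const (-2 * Real.exp (-ta ν n t))) (e1.add e2)).congr fun k x => ?_
    simp only [Hs]
    ring
  have s2 : ∀ k, ContDiff ℝ ∞ (Hs ν A V k n t) := by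
    intro k
    unfold Hs
    exact contDiff_const.mul ((contDiff_const.mul (pd_smooth (hc k) 2)).add
      (contDiff_const.mul ((hcV 2).mul (hc k))))
  have c3 : Ax3 (fun k => Hk ν A k n t) := by
    refine (Ax3.mul (inv_const (-(1 / (4 * ν)) * Real.exp (-(2 * ta ν n t))))
      (FA_ax hsA haA)).congr fun k x => ?_
    rfl
  have s3 : ∀ k, ContDiff ℝ ∞ (Hk ν A k n t) := fun k => contDiff_const.mul (FA_smooth hsA k)
  have b1 := block_ax (fun k => (s1 k).differentiable (by simp)) c1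
    (fun z => Real.cos ((1 : ℕ) * NN n * z))
    (fun z => ((1 : ℕ) * NN n)⁻¹ * Real.sin ((1 : ℕ) * NN n * z))
  have b2 := block_ax (fun k => (s2 k).differentiable (by simp)) c2
    (fun z => Real.sin ((1 : ℕ) * NN n * z))
    (fun z => -(((1 : ℕ) * NN n)⁻¹ * Real.cos ((1 : ℕ) * NN n * z)))
  have b3 := block_ax (fun k => (s3 k).differentiable (by simp)) c3
    (fun z => Real.cos ((2 : ℕ) * NN n * z))
    (fun z => ((2 : ℕ) * NN n)⁻¹ * Real.sin ((2 : ℕ) * NN n * z))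
  have hw : Ax3 (fun k x => ww ν A V k n t x) := by
    refine ((b1.add b2).add b3).congr fun k x => ?_
    simp only [ww, bc, bs, dvx]
    ring
  intro θ x
  obtain ⟨w0, w1, w2⟩ := hw θ x
  ext k
  fin_cases k
  · simpa [wf, rt] using w0
  · simpa [wf, rt] using w1
  · simpa [wf, rt] using w2

end Pool.Agent.Run7.h466.AX

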