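import Pool.Agent.Run7.h148.AX.FIB
import Pool.Agent.Run7.h148.AX.FIC
import Pool.Agent.Run7.h531.AX.CR1
import Pool.Agent.Run7.h531.AX.NLL
import Pool.Agent.Run7.h531.AX.VC1
import Pool.Agent.Run7.h503.AX.CRT
import Pool.Agent.Run7.h503.AX.GRO
import Pool.Agent.Run7.h503.AX.WG1
import Pool.Agent.Run7.h237.AX.FI6
import Pool.Agent.Run7.h237.AX.FI2
import Pool.Agent.Run7.h554.AX.PHY
import Pool.Agent.Run7.h155.AX.PTB
import Pool.Agent.Run7.h155.AX.VC2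
import Pool.Agent.Run7.h155.AX.TGT
import Pool.Agent.Run7.h714.AX.GQ1
import Pool.Agent.Run7.h714.AX.OC4
import Pool.Agent.Run7.h167.AX.OC2
import Pool.Agent.Run7.h167.AX.GB1
import Pool.Agent.Run7.h942.AX.CVM
import Pool.Agent.Run7.h942.AX.CR2
import Pool.Agent.Run7.h29.AX.OC1
import Pool.Agent.Run7.h29.AX.OC5
import Pool.Agent.Run7.h29.AX.OC6
import Pool.Agent.Run7.h29.AX.OSC
import Pool.Agent.Run7.h520.AX.RS3
import Pool.Agent.Run7.h520.AX.WDV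
import Pool.Agent.Run7.h148.AX.NLS
import Pool.Agent.Run7.h148.AX.WAX
import Pool.Agent.Run7.h11.AX.SY
import Pool.Agent.Run7.h11.AX.WG
import Pool.Agent.Run7.h11.AX.PER
import Pool.Agent.Run7.h920.AX.RA1
import Pool.Agent.Run7.h920.AX.RA2
import Pool.Agent.Run7.h920.AX.Bas
import Pool.Agent.Run7.h793.AX.FI4
import Pool.Agent.Run7.h495.AX.WST
import Pool.Agent.Run7.h495.AX.RS1
import Pool.Agent.Run7.h495.AX.RS2
import Pool.Agent.Run7.h811.AX.CNV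
import Pool.Agent.Run7.h811.AX.LIN
import Pool.Agent.Run7.h811.AX.FTF
import Pool.Agent.Run7.h950.AX.Lib
import Pool.Agent.Run7.h950.AX.LPP
import Pool.Agent.Run7.h950.AX.GRD
import Pool.Agent.Run7.h950.AX.PAR
import Pool.Agent.Run7.h837.AX.AVG
import Pool.Agent.Run7.h837.AX.MIX
import Pool.Agent.Run7.h935.AX.BIL
import Pool.Agent.Run7.h935.AX.VVP
import Pool.Agent.Run7.h997.AX.FI1
import Pool.Agent.Run7.h997.AX.FI3
import Pool.Agent.Run7.h997.AX.FI5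
import Pool.Agent.Run7.h997.AX.NLB
import Pool.Agent.Run7.h997.AX.NLM
import Pool.Agent.Run7.h264.AX.GB2
import Pool.Agent.Run7.h264.AX.GEQ
import Pool.Agent.Run7.h264.AX.NSA
import Pool.Agent.Run7.h547.AX.GB3
import Pool.Agent.Run7.h547.AX.WDP

/-! Project AX: all pieces together. -/

set_option autoImplicit false

namespace Pool.Agent.Run7.h148.AX.All

open Pool.Agent.Run7.h148.AX

theorem CSX : S_CSX := Pool.Agent.Run7.h942.AX.t_CSX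
theorem CVM : S_CVM := Pool.Agent.Run7.h942.AX.t_CVM
theorem ITM : S_ITM := Pool.Agent.Run7.h942.AX.t_ITM CVM
theorem WK1 : S_WK1 := Pool.Agent.Run7.h942.AX.t_WK1 CVM
theorem CR1 : S_CR1 := Pool.Agent.Run7.h148.AX.t_CR1
theorem CR2 : S_CR2 := Pool.Agent.Run7.h942.AX.t_CR2 CSX CVM
theorem CRT : S_CRT := Pool.Agent.Run7.h503.AX.t_CRT CR1 CR2 ITM
theorem GRO : S_GRO := Pool.Agent.Run7.h503.AX.t_GRO
theorem WG1 : S_WG1 := Pool.Agent.Run7.h503.AX.t_WG1 CVM ITM WK1 GRO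
theorem WG2 : S_WG2 := Run7.h11.AX.t_WG2 CVM ITM WK1 GRO
theorem WG3 : S_WG3 := Run7.h11.AX.t_WG3 CVM ITM WK1 GRO
theorem PER : S_PER := Run7.h11.AX.t_PER CRT WG1 WG2 WG3 ITM CVM
theorem NLB : S_NLB := Pool.Agent.Run7.h997.AX.t_NLB
theorem NLM : S_NLM := Pool.Agent.Run7.h997.AX.t_NLM
theorem NLL : S_NLL := Pool.Agent.Run7.h148.AX.t_NLL
theorem VC1 : S_VC1 := Pool.Agent.Run7.h531.AX.t_VC1 CVM ITM NLB NLM NLL
theorem VC2 : S_VC2 := Pool.Agent.Run7.h155.AX.t_VC2 CVM ITM NLB NLM VC1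
theorem SY1 : S_SY1 := Run7.h11.AX.t_SY1
theorem SY2 : S_SY2 := Run7.h11.AX.t_SY2 SY1
theorem PTB : S_PTB := Pool.Agent.Run7.h155.AX.t_PTB PER VC2 SY1 SY2 NLB NLM NLL CVM
theorem FI1 : S_FI1 := Pool.Agent.Run7.h997.AX.t_FI1
theorem FI2 : S_FI2 := Run7.h237.AX.t_FI2
theorem FI3 : S_FI3 := Pool.Agent.Run7.h997.AX.t_FI3 FI1
theorem FI4 : S_FI4 := Run7.h793.AX.t_FI4 NLB NLM CVM WK1
theorem FI5 : S_FI5 := Pool.Agent.Run7.h997.AX.t_FI5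
theorem FI6 : S_FI6 := Run7.h237.AX.t_FI6 FI1 FI3
theorem PHY : S_PHY := Run7.h554.AX.t_PHY FI1 FI2 FI3 FI4 FI5 FI6
theorem OC1 : S_OC1 := Pool.Agent.Run7.h29.AX.t_OC1
theorem OC2 : S_OC2 := Pool.Agent.Run7.h167.AX.t_OC2
theorem OC3 : S_OC3 := Pool.Agent.Run7.h29.AX.t_OC3
theorem OC4 : S_OC4 := Pool.Agent.Run7.h714.AX.t_OC4
theorem OC5 : S_OC5 := Pool.Agent.Run7.h29.AX.t_OC5
theorem OC6 : S_OC6 := Pool.Agent.Run7.h29.AX.t_OC6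
theorem OSC : S_OSC := Pool.Agent.Run7.h29.AX.t_OSC OC5
theorem LIN : S_LIN := Run7.h811.AX.t_LIN
theorem WST : S_WST := Run7.h495.AX.t_WST
theorem WDV : S_WDV := Pool.Agent.Run7.h520.AX.t_WDV
theorem WAX : S_WAX := Pool.Agent.Run7.h466.AX.t_WAX
theorem RS1 : S_RS1 := Run7.h495.AX.t_RS1 OC1 OC2 LIN WST
theorem RS2 : S_RS2 := Run7.h495.AX.t_RS2 OC1 OC2 OC3 WST
theorem RS3 : S_RS3 := Pool.Agent.Run7.h520.AX.t_RS3 OC1 OC2 WST
theorem RES : S_RES := Run7.h495.AX.t_RES RS1 RS2 RS3 WST OC1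
theorem FTF : S_FTF := Run7.h811.AX.t_FTF
theorem CNV : S_CNV := Run7.h811.AX.t_CNV
theorem BIL : S_BIL := Run7.h935.AX.t_BIL FI1 FI3 FTF CNV
theorem NLS : S_NLS := Pool.Agent.Run7.h466.AX.t_NLS
theorem VVP : S_VVP := Run7.h935.AX.t_VVP FTF NLB NLM CVM WK1 SY1 FI3
theorem INV : S_INV := Run7.h935.AX.t_INV FTF VVP WDV
theorem GQ1 : S_GQ1 := Pool.Agent.Run7.h714.AX.t_GQ1 FTF BIL NLS NLL VVP WDV RES OC2 OC6
theorem GB1 : S_GB1 :=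
  Pool.Agent.Run7.h167.AX.t_GB1 OC2 OC4 RES VVP FTF WDV WAX NLB NLM CVM WK1 SY1 GQ1
theorem GB2 : S_GB2 := Pool.Agent.Run7.h264.AX.t_GB2 OC4 RES VVP NLB CVM
theorem GEQ : S_GEQ := Pool.Agent.Run7.h264.AX.t_GEQ GQ1 GB1 NLM NLB
theorem NSA : S_NSA := Pool.Agent.Run7.h264.AX.t_NSA PTB GB1 GB2 GEQ
theorem IWI : S_IWI := Pool.Agent.Run7.h950.AX.t_IWI
theorem LPP : S_LPP := Pool.Agent.Run7.h950.AX.t_LPP FTF FI3
theorem PAR : S_PAR := Pool.Agent.Run7.h950.AX.t_PAR FTF FI1 FI3 CNV VVP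
theorem GRD : S_GRD := Pool.Agent.Run7.h950.AX.t_GRD FTF FI1 FI3 IWI
theorem INF : S_INF := Pool.Agent.Run7.h920.AX.t_INF
theorem RA1 : S_RA1 := Pool.Agent.Run7.h920.AX.t_RA1
theorem RA2 : S_RA2 := Pool.Agent.Run7.h920.AX.t_RA2 INF
theorem CON : S_CON := Pool.Agent.Run7.h920.AX.t_CON
theorem MIX : S_MIX := Pool.Agent.Run7.h837.AX.t_MIX OC5
theorem AVG : S_AVG := Pool.Agent.Run7.h837.AX.t_AVG
theorem TGT : S_TGT := Pool.Agent.Run7.h155.AX.t_TGT CON MIX AVG LPP PAR GRD RA1 RA2 VVP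
theorem GB3 : S_GB3 := Pool.Agent.Run7.h547.AX.t_GB3 OC4 RES VVP
theorem WDP : S_WDP := Pool.Agent.Run7.h547.AX.t_WDP

/-- The theorem, first form. -/
theorem FIN : S_FIN := t_FIN TGT INV OSC NSA PHY VVP WDV

end Pool.Agent.Run7.h148.AX.All
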