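import Pool.Agent.Run7.h148.AX.Stm4
import Pool.Agent.Run7.h531.AX.CR1

set_option autoImplicit false

open MeasureTheory Set Filter Topology
open scoped ENNReal ContDiff FourierTransform

namespace Pool.Agent.Run7.h148.AX

theorem ht01 {κ : ℝ} (hκ : 0 < κ) (ξ : E3) (t : ℝ) :
    0 ≤ ht κ ξ (max t 0) ∧ ht κ ξ (max t 0) ≤ 1 := by
  constructor
  · exact (Real.exp_pos _).le
  · unfold ht
    apply Real.exp_le_one_iff.2
    have h1 : 0 ≤ max t 0 := le_max_right _ _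
    have : 0 ≤ κ * ‖ξ‖ ^ 2 * max t 0 := by positivity
    linarith

theorem ht_jcont (κ : ℝ) : Continuous fun p : ℝ × E3 => ht κ p.2 (max p.1 0) := by
  unfold ht; fun_prop

theorem nm_hev {κ : ℝ} (hκ : 0 < κ) (w : E3 → C3) (t : ℝ) (ξ : E3) :
    nm (hev κ w) t ξ = ENNReal.ofReal (ht κ ξ (max t 0)) * ‖w ξ‖ₑ := by
  unfold nm hev
  rw [enorm_smul, Real.enorm_eq_ofReal (ht01 hκ ξ t).1]

theorem nm_hev_le {κ : ℝ} (hκ : 0 < κ) (w : E3 → C3) (t : ℝ) (ξ : E3) :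
    nm (hev κ w) t ξ ≤ ‖w ξ‖ₑ := by
  rw [nm_hev hκ]
  calc ENNReal.ofReal (ht κ ξ (max t 0)) * ‖w ξ‖ₑ ≤ 1 * ‖w ξ‖ₑ := by
        gcongr
        rw [← ENNReal.ofReal_one]
        exact ENNReal.ofReal_le_ofReal (ht01 hκ ξ t).2
    _ = ‖w ξ‖ₑ := one_mul _

theorem ht_time {κ : ℝ} (hκ : 0 < κ) (ξ : E3) (T : ℝ) (hT : 0 ≤ T) :
    ∫⁻ s in Ioc 0 T, ENNReal.ofReal (κ * ‖ξ‖ ^ 2 * ht κ ξ s) ≤ 1 := by
  have h := CR1_ftc (fun t => ht κ ξ t) (fun t => -(κ * ‖ξ‖ ^ 2 * ht κ ξ t)) 0 T hT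
    (fun t => by
      have h1 : HasDerivAt (fun t : ℝ => -(κ * ‖ξ‖ ^ 2 * t)) (-(κ * ‖ξ‖ ^ 2)) t := by
        simpa using ((hasDerivAt_id t).const_mul (κ * ‖ξ‖ ^ 2)).fun_neg
      have h2 := h1.exp
      unfold ht
      convert h2 using 1
      ring)
    (by unfold ht; fun_prop)
    (fun t => by
      have : 0 < ht κ ξ t := Real.exp_pos _
      have : 0 ≤ κ * ‖ξ‖ ^ 2 * ht κ ξ t := by positivity
      linarith)
    (Real.exp_pos _).le
  have h0 : ht κ ξ 0 = 1 := by simp [ht]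
  simp only [neg_neg] at h
  rw [h0, ENNReal.ofReal_one] at h
  exact (lintegral_mono_set Ioc_subset_Icc_self).trans h

theorem t_JCN : S_CSX → S_JCN := by
  intro hCSX κ δ w hκ hδ hw hwd
  have hwm : Measurable fun ξ => ‖w ξ‖ₑ := hw.1.enorm
  have hm : Measurable (Function.uncurry (hev κ w)) := by
    have h1 : Measurable fun p : ℝ × E3 => ht κ p.2 (max p.1 0) := (ht_jcont κ).measurable
    exact h1.smul (hw.1.comp measurable_snd)
  have hT : TameV (hev κ w) := by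
    refine ⟨hm, hm.enorm, fun k T => ?_⟩
    obtain ⟨M, h1, h2⟩ := hw.2 k
    exact ⟨M, fun t _ => ⟨(lintegral_mono fun ξ => mul_le_mul' le_rfl (nm_hev_le hκ w t ξ)).trans h1,
      fun ξ => (mul_le_mul' le_rfl (nm_hev_le hκ w t ξ)).trans (h2 ξ)⟩⟩
  have hX : ∀ t, (∫⁻ ξ, iw ξ * nm (hev κ w) t ξ) ≤ ENNReal.ofReal δ := fun t =>
    (lintegral_mono fun ξ => mul_le_mul' le_rfl (nm_hev_le hκ w t ξ)).trans hwd
  refine ⟨hT, hX, ?_⟩
  -- integrability of `w`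
  have hwi : Integrable fun ξ => ‖w ξ‖ := by
    obtain ⟨M, h1, -⟩ := hw.2 0
    refine ⟨hw.1.norm.aestronglyMeasurable, ?_⟩
    refine lt_of_le_of_lt (le_trans (lintegral_mono fun ξ => ?_) h1) ENNReal.coe_lt_top
    simp [wk]
  set J : ℝ → ℝ := fun t => ∫ ξ, ht κ ξ (max t 0) * ‖w ξ‖ with hJ
  have hJi : ∀ t, Integrable fun ξ => ht κ ξ (max t 0) * ‖w ξ‖ := fun t => by
    refine hwi.mono' ?_ (Eventually.of_forall fun ξ => ?_)
    · exact ((((ht_jcont κ).comp (continuous_const.prodMk continuous_id)).measurable).mul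
        hw.1.norm).aestronglyMeasurable
    · rw [Real.norm_eq_abs, abs_of_nonneg (mul_nonneg (ht01 hκ ξ t).1 (norm_nonneg _))]
      calc ht κ ξ (max t 0) * ‖w ξ‖ ≤ 1 * ‖w ξ‖ := by
            gcongr
            exact (ht01 hκ ξ t).2
        _ = ‖w ξ‖ := one_mul _
  have hJn : ∀ t, (∫⁻ ξ, nm (hev κ w) t ξ) = ENNReal.ofReal (J t) := fun t => by
    rw [hJ, ofReal_integral_eq_lintegral_ofReal (hJi t)
      (Eventually.of_forall fun ξ => mul_nonneg (ht01 hκ ξ t).1 (norm_nonneg _))]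
    refine lintegral_congr fun ξ => ?_
    rw [nm_hev hκ, ENNReal.ofReal_mul (ht01 hκ ξ t).1, ofReal_norm]
  have hJ0 : ∀ t, 0 ≤ J t := fun t =>
    integral_nonneg fun ξ => mul_nonneg (ht01 hκ ξ t).1 (norm_nonneg _)
  have hJc : Continuous J := by
    refine continuous_of_dominated (F := fun t ξ => ht κ ξ (max t 0) * ‖w ξ‖)
      (bound := fun ξ => ‖w ξ‖) (fun t => (hJi t).aestronglyMeasurable) (fun t => ?_) hwi ?_
    · refine Eventually.of_forall fun ξ => ?_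
      rw [Real.norm_eq_abs, abs_of_nonneg (mul_nonneg (ht01 hκ ξ t).1 (norm_nonneg _))]
      calc ht κ ξ (max t 0) * ‖w ξ‖ ≤ 1 * ‖w ξ‖ := by
            gcongr
            exact (ht01 hκ ξ t).2
        _ = ‖w ξ‖ := one_mul _
    · refine Eventually.of_forall fun ξ => ?_
      exact ((ht_jcont κ).comp (continuous_id.prodMk continuous_const)).mul continuous_const
  refine ⟨J, hJc, hJ0, fun t => (hJn t).le, fun T hT0 => ?_⟩
  -- the bound in `L²`
  have hsq : ∀ s, ENNReal.ofReal (J s ^ 2)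
      ≤ ENNReal.ofReal δ * ∫⁻ ξ, nw ξ * nm (hev κ w) s ξ := fun s => by
    rw [ENNReal.ofReal_pow (hJ0 s), ← hJn s]
    have hms : Measurable (nm (hev κ w) s) := (hm.comp measurable_prodMk_left).enorm
    exact (hCSX _ hms).trans (mul_le_mul' (hX s) le_rfl)
  have hns : (∫⁻ s in Ioc 0 T, ENNReal.ofReal κ * ∫⁻ ξ, nw ξ * nm (hev κ w) s ξ)
      ≤ ENNReal.ofReal δ := by
    have e1 : (∫⁻ s in Ioc 0 T, ENNReal.ofReal κ * ∫⁻ ξ, nw ξ * nm (hev κ w) s ξ)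
        = ∫⁻ s in Ioc 0 T, ∫⁻ ξ, iw ξ * ‖w ξ‖ₑ * ENNReal.ofReal (κ * ‖ξ‖ ^ 2 * ht κ ξ s) := by
      refine setLIntegral_congr_fun measurableSet_Ioc fun s hs => ?_
      rw [← lintegral_const_mul' _ _ ENNReal.ofReal_ne_top]
      refine lintegral_congr fun ξ => ?_
      rw [nm_hev hκ, max_eq_left hs.1.le]
      by_cases hξ : ξ = 0
      · subst hξ
        simp [nw, iw]
      · have hn : 0 < ‖ξ‖ := norm_pos_iff.2 hξ
        have hh : 0 ≤ ht κ ξ s := (Real.exp_pos _).le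
        unfold nw iw
        have e2 : ENNReal.ofReal κ * (ENNReal.ofReal ‖ξ‖ * (ENNReal.ofReal (ht κ ξ s) * ‖w ξ‖ₑ))
            = (ENNReal.ofReal κ * ENNReal.ofReal ‖ξ‖ * ENNReal.ofReal (ht κ ξ s)) * ‖w ξ‖ₑ := by
          ring
        have e3 : ENNReal.ofReal ‖ξ‖⁻¹ * ‖w ξ‖ₑ * ENNReal.ofReal (κ * ‖ξ‖ ^ 2 * ht κ ξ s)
            = (ENNReal.ofReal ‖ξ‖⁻¹ * ENNReal.ofReal (κ * ‖ξ‖ ^ 2 * ht κ ξ s)) * ‖w ξ‖ₑ := by
          ring
        rw [e2, e3, ← ENNReal.ofReal_mul hκ.le, ← ENNReal.ofReal_mul (by positivity),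
          ← ENNReal.ofReal_mul (by positivity)]
        congr 2
        field_simp
    rw [e1, lintegral_lintegral_swap]
    · calc (∫⁻ ξ, ∫⁻ s in Ioc 0 T, iw ξ * ‖w ξ‖ₑ * ENNReal.ofReal (κ * ‖ξ‖ ^ 2 * ht κ ξ s))
          ≤ ∫⁻ ξ, iw ξ * ‖w ξ‖ₑ := by
            refine lintegral_mono fun ξ => ?_
            have hms : Measurable fun s => ENNReal.ofReal (κ * ‖ξ‖ ^ 2 * ht κ ξ s) := by
              refine Measurable.ennreal_ofReal ?_
              unfold ht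
              exact Continuous.measurable (by fun_prop)
            rw [lintegral_const_mul _ hms]
            calc iw ξ * ‖w ξ‖ₑ * (∫⁻ s in Ioc 0 T, ENNReal.ofReal (κ * ‖ξ‖ ^ 2 * ht κ ξ s))
                ≤ iw ξ * ‖w ξ‖ₑ * 1 := mul_le_mul' le_rfl (ht_time hκ ξ T hT0)
              _ = iw ξ * ‖w ξ‖ₑ := mul_one _
        _ ≤ ENNReal.ofReal δ := hwd
    · refine Measurable.aemeasurable ?_
      have m1 : Measurable fun p : ℝ × E3 => iw p.2 * ‖w p.2‖ₑ :=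
        (CR1_iw.comp measurable_snd).mul (hwm.comp measurable_snd)
      have m2 : Measurable fun p : ℝ × E3 => ENNReal.ofReal (κ * ‖p.2‖ ^ 2 * ht κ p.2 p.1) := by
        refine Measurable.ennreal_ofReal ?_
        unfold ht
        exact Continuous.measurable (by fun_prop)
      exact m1.mul m2
  have hJI : Integrable (fun s => J s ^ 2) (volume.restrict (Ioc 0 T)) := by
    have h1 : Continuous fun s => J s ^ 2 := hJc.pow 2
    exact (h1.integrableOn_Icc (μ := volume) (a := 0) (b := T)).mono_set Ioc_subset_Icc_self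
  have hfin : ENNReal.ofReal (κ * ∫ s in (0 : ℝ)..T, J s ^ 2) ≤ ENNReal.ofReal (δ * δ) := by
    rw [intervalIntegral.integral_of_le hT0, ENNReal.ofReal_mul hκ.le,
      ofReal_integral_eq_lintegral_ofReal (f := fun s => J s ^ 2) hJI
        (Eventually.of_forall fun s => sq_nonneg (J s)),
      ← lintegral_const_mul' _ _ ENNReal.ofReal_ne_top, ENNReal.ofReal_mul hδ]
    calc (∫⁻ s in Ioc 0 T, ENNReal.ofReal κ * ENNReal.ofReal (J s ^ 2))
        ≤ ∫⁻ s in Ioc 0 T, ENNReal.ofReal δ *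
            (ENNReal.ofReal κ * ∫⁻ ξ, nw ξ * nm (hev κ w) s ξ) := by
          refine lintegral_mono fun s => ?_
          calc ENNReal.ofReal κ * ENNReal.ofReal (J s ^ 2)
              ≤ ENNReal.ofReal κ * (ENNReal.ofReal δ * ∫⁻ ξ, nw ξ * nm (hev κ w) s ξ) :=
                mul_le_mul' le_rfl (hsq s)
            _ = _ := by ring
      _ = ENNReal.ofReal δ * ∫⁻ s in Ioc 0 T,
            (ENNReal.ofReal κ * ∫⁻ ξ, nw ξ * nm (hev κ w) s ξ) :=
          lintegral_const_mul' _ _ ENNReal.ofReal_ne_top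
      _ ≤ ENNReal.ofReal δ * ENNReal.ofReal δ := mul_le_mul' le_rfl hns
  have h1 := (ENNReal.ofReal_le_ofReal_iff (by positivity)).1 hfin
  rw [le_div_iff₀ hκ]
  nlinarith [h1]

end Pool.Agent.Run7.h148.AX
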