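import Pool.Agent.Run7.h148.AX.All
import Pool.Agent.Run7.h148.AX.TMN
import Pool.Agent.Run7.h148.AX.JCN
import Pool.Agent.Run7.h760.AX.OPN
import Pool.Agent.Run7.h554.AX.ADD
import Pool.Agent.Run7.h554.AX.NSC

/-! Project AX: the strongest form. -/

set_option autoImplicit false

namespace Pool.Agent.Run7.h148.AX.All

open Pool.Agent.Run7.h148.AX

theorem TMN : S_TMN := t_TMN NLB NLM CVM WK1
theorem JCN : S_JCN := t_JCN CSX
theorem OPN : S_OPN := Run7.h760.AX.t_OPN PTB JCN TMN NLB NLL CVM SY1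
theorem ADD : S_ADD := Run7.h554.AX.t_ADD TMN NLB NLL CVM SY1
theorem NSC : S_NSC := Run7.h554.AXN.t_NSC OPN ADD GB1 GB2 GB3 GEQ

/-- The theorem, strongest form. -/
theorem FIC : S_FIC := t_FIC TGT INV OSC NSC PHY VVP WDV GB1 FI3 WDP

end Pool.Agent.Run7.h148.AX.All
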