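import Mathlib

/-!
Project AX (MP_09540e_an): axisymmetric data with global smooth solutions of the Navier-Stokes
equations in the whole space are dense. DEFINITIONS.
-/

set_option autoImplicit false

open MeasureTheory Set Filter Topology
open scoped ENNReal ContDiff FourierTransform

namespace Pool.Agent.Run7.h148.AX

abbrev E3 := EuclideanSpace ℝ (Fin 3)
abbrev C3 := Fin 3 → ℂ

/-! ### Part I: Fourier side -/

/-- heat factor -/
noncomputable def ht (κ : ℝ) (ξ : E3) (t : ℝ) : ℝ := Real.exp (-(κ * ‖ξ‖ ^ 2 * t))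

/-- `ξ · v` -/
noncomputable def dt (ξ : E3) (v : C3) : ℂ := ∑ j, (ξ j : ℂ) * v j

/-- Leray projection at the frequency `ξ` -/
noncomputable def lp (ξ : E3) (v : C3) : C3 :=
  fun k => v k - (ξ k : ℂ) * dt ξ v / ((‖ξ‖ ^ 2 : ℝ) : ℂ)

/-- the Fourier transform of `- P div (a ⊗ b)`, for the Fourier transforms `a`, `b` -/
noncomputable def nl (a b : E3 → C3) (ξ : E3) : C3 :=
  (-(2 * Real.pi * Complex.I) : ℂ) • lp ξ (∫ η, dt ξ (a (ξ - η)) • b η)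

/-- convolution of majorants -/
noncomputable def cv (f g : E3 → ℝ≥0∞) (ξ : E3) : ℝ≥0∞ := ∫⁻ η, f (ξ - η) * g η

/-- weight `|ξ|` -/
noncomputable def nw (ξ : E3) : ℝ≥0∞ := ENNReal.ofReal ‖ξ‖
/-- weight `1 / |ξ|` (zero at zero) -/
noncomputable def iw (ξ : E3) : ℝ≥0∞ := ENNReal.ofReal ‖ξ‖⁻¹
/-- weight `(1 + |ξ|) ^ k` -/
noncomputable def wk (k : ℕ) (ξ : E3) : ℝ≥0∞ := ENNReal.ofReal ((1 + ‖ξ‖) ^ k)

/-- Duhamel integral of a majorant -/
noncomputable def dh (κ : ℝ) (F : ℝ → E3 → ℝ≥0∞) (t : ℝ) (ξ : E3) : ℝ≥0∞ :=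
  ∫⁻ s in Ioc 0 t, ENNReal.ofReal (ht κ ξ (t - s)) * F s ξ

/-- source of the majorant iteration -/
noncomputable def src (f h m : ℝ → E3 → ℝ≥0∞) (s : ℝ) (ξ : E3) : ℝ≥0∞ :=
  f s ξ + 40 * nw ξ * (cv (h s) (m s) ξ + cv (m s) (h s) ξ + cv (m s) (m s) ξ)

/-- majorants of the Picard iterates -/
noncomputable def itm (κ : ℝ) (f h : ℝ → E3 → ℝ≥0∞) : ℕ → ℝ → E3 → ℝ≥0∞
  | 0 => fun _ _ => 0
  | n + 1 => dh κ (src f h (itm κ f h n))

/-- Picard step of the perturbed equation -/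
noncomputable def stp (κ : ℝ) (F g v : ℝ → E3 → C3) (t : ℝ) (ξ : E3) : C3 :=
  ∫ s in Ioc 0 t, ht κ ξ (t - s) •
    (F s ξ + nl (g s) (v s) ξ + nl (v s) (g s) ξ + nl (v s) (v s) ξ)

/-- Picard iterates -/
noncomputable def itv (κ : ℝ) (F g : ℝ → E3 → C3) : ℕ → ℝ → E3 → C3
  | 0 => fun _ _ => 0
  | n + 1 => stp κ F g (itv κ F g n)

/-- norm of a curve -/
noncomputable def nm (a : ℝ → E3 → C3) (t : ℝ) (ξ : E3) : ℝ≥0∞ := ‖a t ξ‖ₑ

/-- all weights, in `L¹` and in `L^∞`, locally uniformly in time -/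
def Tame (a : ℝ → E3 → ℝ≥0∞) : Prop :=
  Measurable (Function.uncurry a) ∧ ∀ (k : ℕ) (T : ℝ), ∃ M : NNReal, ∀ t ∈ Icc 0 T,
    (∫⁻ ξ, wk k ξ * a t ξ) ≤ M ∧ ∀ ξ, wk k ξ * a t ξ ≤ M

def TameV (a : ℝ → E3 → C3) : Prop := Measurable (Function.uncurry a) ∧ Tame (nm a)

/-- Gronwall weight -/
noncomputable def th (μ : ℝ) (H : ℝ → ℝ) (t : ℝ) : ℝ≥0∞ :=
  ENNReal.ofReal (Real.exp (-(μ * ∫ s in (0 : ℝ)..t, H s ^ 2)))

/-- uniform bounds for the majorants -/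
def Uni (κ : ℝ) (f h : ℝ → E3 → ℝ≥0∞) : Prop := ∀ T : ℝ, ∃ M : NNReal, ∀ t ∈ Icc 0 T,
  (∀ n, ∫⁻ ξ, itm κ f h n t ξ ≤ M) ∧ (∀ n ξ, itm κ f h n t ξ ≤ M) ∧ (∫⁻ ξ, h t ξ ≤ M) ∧
    (∀ ξ, h t ξ ≤ M) ∧ (∀ ξ, f t ξ ≤ M)

/-- Fourier transform of a (mild) solution of the Navier-Stokes equations, `κ = 4 π² ν` -/
def Mild (κ : ℝ) (u : ℝ → E3 → C3) : Prop := ∀ t, 0 ≤ t → ∀ ξ,
  u t ξ = ht κ ξ t • u 0 ξ + ∫ s in Ioc 0 t, ht κ ξ (t - s) • nl (u s) (u s) ξ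

/-! ### Symmetries -/

/-- rotation about the axis `x 2` -/
noncomputable def rt (θ : ℝ) (x : E3) : E3 :=
  !₂[Real.cos θ * x 0 - Real.sin θ * x 1, Real.sin θ * x 0 + Real.cos θ * x 1, x 2]

/-- the same rotation of complex vectors -/
noncomputable def rc (θ : ℝ) (v : C3) : C3 :=
  ![(Real.cos θ : ℂ) * v 0 - (Real.sin θ : ℂ) * v 1,
    (Real.sin θ : ℂ) * v 0 + (Real.cos θ : ℂ) * v 1, v 2]

def Herm (a : E3 → C3) : Prop := ∀ ξ k, a (-ξ) k = (starRingEnd ℂ) (a ξ k)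
def Rot (a : E3 → C3) : Prop := ∀ θ ξ, a (rt θ ξ) = rc θ (a ξ)
def Dvf (a : E3 → C3) : Prop := ∀ ξ, dt ξ (a ξ) = 0
def Sym (a : E3 → C3) : Prop := Herm a ∧ Rot a ∧ Dvf a

/-- axisymmetric vector field (swirl allowed) -/
def Axi (u : E3 → E3) : Prop := ∀ θ x, u (rt θ x) = rt θ (u x)

/-! ### Physical side -/

/-- partial derivative -/
noncomputable def pd (j : Fin 3) (f : E3 → ℝ) (x : E3) : ℝ :=
  fderiv ℝ f x (EuclideanSpace.single j 1)

/-- Fourier transform of a real vector field -/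
noncomputable def fth (A : E3 → E3) (ξ : E3) : C3 := fun k => 𝓕 (fun x => ((A x k : ℝ) : ℂ)) ξ

/-- the real vector field with the Fourier transform `a` -/
noncomputable def phy (a : E3 → C3) (x : E3) : E3 :=
  WithLp.toLp 2 fun k => (𝓕⁻ (fun ξ => a ξ k) x).re

/-- Global smooth axisymmetric solution of the Navier-Stokes equations with viscosity `ν` in the
whole space: `u t` and `p t` are smooth, all derivatives of `u t` are bounded and square integrable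
locally uniformly in time, and the equations hold for all `t ≥ 0`. -/
structure IsSol (ν : ℝ) (u : ℝ → E3 → E3) (p : ℝ → E3 → ℝ) : Prop where
  smooth : ∀ t, 0 ≤ t → ContDiff ℝ ∞ (u t) ∧ ContDiff ℝ ∞ (p t)
  axi : ∀ t, 0 ≤ t → Axi (u t)
  div : ∀ t, 0 ≤ t → ∀ x, ∑ j, pd j (fun y => u t y j) x = 0
  eqn : ∀ t, 0 ≤ t → ∀ x k, HasDerivWithinAt (fun s => u s x k)
    (ν * (∑ j, pd j (pd j fun y => u t y k) x) - (∑ j, u t x j * pd j (fun y => u t y k) x)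
      - pd k (p t) x) (Ici 0) t
  bdd : ∀ (n : ℕ) (T : ℝ), ∃ M : ℝ, ∀ t ∈ Icc 0 T, ∀ x, ‖iteratedFDeriv ℝ n (u t) x‖ ≤ M
  sqi : ∀ (n : ℕ) (T : ℝ), ∃ M : NNReal, ∀ t ∈ Icc 0 T,
    ∫⁻ x, ‖iteratedFDeriv ℝ n (u t) x‖ₑ ^ 2 ≤ M

/-! ### The class of oscillating families -/

/-- wave number -/
noncomputable def NN (n : ℕ) : ℝ := n + 1
/-- fast time -/
noncomputable def ta (ν : ℝ) (n : ℕ) (t : ℝ) : ℝ := ν * NN n ^ 2 * t

abbrev Fam := ℕ → ℝ → E3 → ℝ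

noncomputable def Tc (ν : ℝ) (q : ℤ) (l j : ℕ) (k : ℤ) (ρ : E3 → ℝ) : Fam := fun n t x =>
  NN n ^ q * ta ν n t ^ l * Real.exp (-(j * ta ν n t)) * ρ x * Real.cos (k * NN n * x 2)
noncomputable def Ts (ν : ℝ) (q : ℤ) (l j : ℕ) (k : ℤ) (ρ : E3 → ℝ) : Fam := fun n t x =>
  NN n ^ q * ta ν n t ^ l * Real.exp (-(j * ta ν n t)) * ρ x * Real.sin (k * NN n * x 2)

def Cc (ρ : E3 → ℝ) : Prop := ContDiff ℝ ∞ ρ ∧ HasCompactSupport ρ

/-- generators of order at most `p` -/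
def Gen (ν : ℝ) (p : ℤ) : Set Fam := {f | ∃ (q : ℤ) (l j : ℕ) (k : ℤ) (ρ : E3 → ℝ),
  q ≤ p ∧ 1 ≤ j ∧ Cc ρ ∧ (f = Tc ν q l j k ρ ∨ f = Ts ν q l j k ρ)}

/-- families of order at most `p` -/
noncomputable def OO (ν : ℝ) (p : ℤ) : Submodule ℝ Fam := Submodule.span ℝ (Gen ν p)

noncomputable def dx (i : Fin 3) (f : Fam) : Fam := fun n t x => pd i (f n t) x
noncomputable def dtm (f : Fam) : Fam := fun n t x => deriv (fun s => f n s x) t

/-- divergence of a vector family -/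
noncomputable def dvx (H : Fin 3 → Fam) : Fam := fun n t x => ∑ i, pd i (H i n t) x

/-- divergence free block, cosine type -/
noncomputable def bc (m : ℕ) (H : Fin 3 → Fam) (k : Fin 3) : Fam := fun n t x =>
  H k n t x * Real.cos (m * NN n * x 2) + (m * NN n)⁻¹ * Real.sin (m * NN n * x 2) *
    (pd 2 (H k n t) x - if k = 2 then dvx H n t x else 0)
/-- divergence free block, sine type -/
noncomputable def bs (m : ℕ) (H : Fin 3 → Fam) (k : Fin 3) : Fam := fun n t x =>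
  H k n t x * Real.sin (m * NN n * x 2) - (m * NN n)⁻¹ * Real.cos (m * NN n * x 2) *
    (pd 2 (H k n t) x - if k = 2 then dvx H n t x else 0)

/-- `div A` -/
noncomputable def dvA (A : E3 → E3) (x : E3) : ℝ := ∑ j, pd j (fun y => A y j) x
/-- `(A · ∇) A - (div A) A` -/
noncomputable def FA (A : E3 → E3) (k : Fin 3) (x : E3) : ℝ :=
  (∑ j, A x j * pd j (fun y => A y k) x) - dvA A x * A x k

noncomputable def Hc (ν : ℝ) (A : E3 → E3) (k : Fin 3) : Fam := fun n t x =>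
  NN n * Real.exp (-ta ν n t) * A x k
noncomputable def Hs (ν : ℝ) (A V : E3 → E3) (k : Fin 3) : Fam := fun n t x =>
  -2 * Real.exp (-ta ν n t) * (ta ν n t * pd 2 (fun y => A y k) x +
    1 / (4 * ν) * Real.exp (-(2 * ta ν n t)) * (V x 2 * A x k))
noncomputable def Hk (ν : ℝ) (A : E3 → E3) (k : Fin 3) : Fam := fun n t x =>
  -(1 / (4 * ν)) * Real.exp (-(2 * ta ν n t)) * FA A k x

/-- the wave -/
noncomputable def ww (ν : ℝ) (A V : E3 → E3) (k : Fin 3) : Fam := fun n t x =>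
  bc 1 (Hc ν A) k n t x + bs 1 (Hs ν A V) k n t x + bc 2 (Hk ν A) k n t x

/-- the wave as a vector field -/
noncomputable def wf (ν : ℝ) (A V : E3 → E3) (n : ℕ) (t : ℝ) (x : E3) : E3 :=
  WithLp.toLp 2 fun k => ww ν A V k n t x

/-- the residual of the wave -/
noncomputable def Rw (ν : ℝ) (A V : E3 → E3) (k : Fin 3) : Fam := fun n t x =>
  dtm (ww ν A V k) n t x - ν * (∑ j, dx j (dx j (ww ν A V k)) n t x)
    + Real.exp (-(2 * ta ν n t)) * (∑ j, (V x j * dx j (ww ν A V k) n t x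
        + ww ν A V j n t x * pd j (fun y => V y k) x))
    + (∑ j, ww ν A V j n t x * dx j (ww ν A V k) n t x)
    - NN n ^ 2 / 2 * Real.exp (-(2 * ta ν n t)) * (∑ j, pd j (fun y => A y j * A y k) x)

noncomputable def Rwf (ν : ℝ) (A V : E3 → E3) (n : ℕ) (t : ℝ) (x : E3) : E3 :=
  WithLp.toLp 2 fun k => Rw ν A V k n t x

/-- admissible amplitudes: smooth, compactly supported, horizontal, axisymmetric -/
def Adm (A : E3 → E3) : Prop :=
  ContDiff ℝ ∞ A ∧ HasCompactSupport A ∧ (∀ x, A x 2 = 0) ∧ Axi A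

/-- Fourier transform of `(1/(4ν)) P div (A ⊗ A)` -/
noncomputable def Vh (ν : ℝ) (A : E3 → E3) (ξ : E3) : C3 :=
  (-(1 / (4 * ν)) : ℝ) • nl (fth A) (fth A) ξ

/-- the mean field -/
noncomputable def VV (ν : ℝ) (A : E3 → E3) : E3 → E3 := phy (Vh ν A)

/-- Fourier transform of the approximate solution -/
noncomputable def gg (ν : ℝ) (A : E3 → E3) (n : ℕ) (t : ℝ) (ξ : E3) : C3 :=
  Real.exp (-(2 * ta ν n t)) • Vh ν A ξ + fth (wf ν A (VV ν A) n t) ξ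

/-- Fourier transform of the residual of the approximate solution -/
noncomputable def Rr (ν : ℝ) (A : E3 → E3) (n : ℕ) (t : ℝ) (ξ : E3) : C3 :=
  lp ξ (fth (Rwf ν A (VV ν A) n t) ξ)
    + (4 * Real.pi ^ 2 * ν * ‖ξ‖ ^ 2 * Real.exp (-(2 * ta ν n t))) • Vh ν A ξ
    - (Real.exp (-(2 * ta ν n t)) ^ 2) • nl (Vh ν A) (Vh ν A) ξ

/-- test fields -/
def Test (φ : E3 → E3) : Prop := ContDiff ℝ ∞ φ ∧ HasCompactSupport φ

/-- weakly divergence free -/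
def WDf (u : E3 → E3) : Prop := ∀ q : E3 → ℝ, Cc q → ∫ x, ∑ j, u x j * pd j q x = 0

/-- `∫ u · φ` -/
noncomputable def pair (u φ : E3 → E3) : ℝ := ∫ x, ∑ j, u x j * φ x j

/-- the Leray projection of a test field -/
noncomputable def LP (φ : E3 → E3) : E3 → E3 := phy fun ξ => lp ξ (fth φ ξ)

/-- `∫ Σ A_j A_k ∂_j Φ_k` -/
noncomputable def qf (A Φ : E3 → E3) : ℝ := ∫ x, ∑ j, ∑ k, A x j * A x k * pd j (fun y => Φ y k) x

end Pool.Agent.Run7.h148.AX
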