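import Pool.Agent.Run7.h148.AX.Defs

/-!
Project AX, PART I: majorants, perturbation theorem, symmetries, physical solution. Each `S_XXX` is
a closed proposition; its proof is in the doc string.
HOW TO: for the piece XXX write `Pool/Agent/Run7/<you>/AX/XXX.lean` with
`theorem t_XXX : (S_AAA → S_BBB →) S_XXX`, the hypotheses being those of the column `hyps` of the
table `h148ax_pieces`.
-/

set_option autoImplicit false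

open MeasureTheory Set Filter Topology
open scoped ENNReal ContDiff FourierTransform

namespace Pool.Agent.Run7.h148.AX

/-- CSX (30 lines). Cauchy-Schwarz. Proof: `iw ξ * nw ξ = 1` for `ξ ≠ 0`, and `{0}` is a null set;
`m = (iw m)^(1/2) (nw m)^(1/2)` and Hoelder `ENNReal.lintegral_mul_le_Lp_mul_Lq` with `p = q = 2`. -/
def S_CSX : Prop := ∀ m : E3 → ℝ≥0∞, Measurable m →
  (∫⁻ ξ, m ξ) ^ 2 ≤ (∫⁻ ξ, iw ξ * m ξ) * ∫⁻ ξ, nw ξ * m ξ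

/-- CVM (50 lines). Measurability, mass, commutativity and additivity of `cv`. Proof: Tonelli and
translation invariance; `η ↦ ξ - η` preserves Lebesgue measure. The last one: joint measurability
(`Measurable.lintegral_prod_right'`). -/
def S_CVM : Prop :=
  (∀ f g : E3 → ℝ≥0∞, Measurable f → Measurable g →
    Measurable (cv f g) ∧ (∫⁻ ξ, cv f g ξ) = (∫⁻ ξ, f ξ) * ∫⁻ ξ, g ξ) ∧
  (∀ f g : E3 → ℝ≥0∞, Measurable f → Measurable g → cv f g = cv g f) ∧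
  (∀ a b : ℝ → E3 → ℝ≥0∞, Measurable (Function.uncurry a) → Measurable (Function.uncurry b) →
    Measurable fun p : ℝ × E3 => cv (a p.1) (b p.1) p.2)

/-- ITM (50 lines, from CVM). Proof: `dh κ F t ξ = ∫⁻ s, indicator {0 < s ≤ t} ...` is jointly
measurable; induction. Monotonicity: `cv` is monotone in both arguments. -/
def S_ITM : Prop :=
  (∀ (κ : ℝ) (F : ℝ → E3 → ℝ≥0∞), Measurable (Function.uncurry F) →
    Measurable (Function.uncurry (dh κ F))) ∧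
  ∀ (κ : ℝ) (f h : ℝ → E3 → ℝ≥0∞), Measurable (Function.uncurry f) →
    Measurable (Function.uncurry h) → ∀ n, Measurable (Function.uncurry (itm κ f h n)) ∧
      ∀ t ξ, itm κ f h n t ξ ≤ itm κ f h (n + 1) t ξ

/-- CR1 (110 lines). Three Tonelli bounds with the Gronwall weight `th`. Proof: `th μ H` is
nonincreasing, `ht ≤ 1`. (1) `th t · iw ξ · dh F t ξ ≤ ∫⁻_{0<s≤t} th s · iw ξ · F s ξ`, integrate in
`ξ`. (2) `ofReal κ · nw ξ = ofReal (κ |ξ|²) · iw ξ` for `ξ ≠ 0`; Tonelli in `(t, s)`: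
`∫⁻_t th t ∫⁻_ξ κ nw ∫⁻_{s ≤ t} ht(t-s) F ≤ ∫⁻_ξ ∫⁻_s th s iw ξ F s ξ ∫⁻_{t ∈ (s,T]} κ |ξ|² exp(-κ |ξ|² (t-s))`
and the inner integral is `≤ 1`. (3) the same with the inner integral
`∫⁻_{t ∈ (s,T]} μ H(t)² th t = th s - th T ≤ th s` (fundamental theorem of calculus). -/
def S_CR1 : Prop := ∀ (κ μ T : ℝ) (H : ℝ → ℝ) (F : ℝ → E3 → ℝ≥0∞), 0 < κ → 0 ≤ μ → 0 ≤ T →
  Continuous H → Measurable (Function.uncurry F) →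
  (∀ t ∈ Icc 0 T, th μ H t * (∫⁻ ξ, iw ξ * dh κ F t ξ)
    ≤ ∫⁻ s in Ioc 0 T, th μ H s * ∫⁻ ξ, iw ξ * F s ξ) ∧
  (ENNReal.ofReal κ * (∫⁻ t in Ioc 0 T, th μ H t * ∫⁻ ξ, nw ξ * dh κ F t ξ)
    ≤ ∫⁻ s in Ioc 0 T, th μ H s * ∫⁻ ξ, iw ξ * F s ξ) ∧
  (∫⁻ t in Ioc 0 T, ENNReal.ofReal (μ * H t ^ 2) * (th μ H t * ∫⁻ ξ, iw ξ * dh κ F t ξ))
    ≤ ∫⁻ s in Ioc 0 T, th μ H s * ∫⁻ ξ, iw ξ * F s ξ

/-- CR2 (90 lines, from CSX, CVM). The quadratic step, `μ = 25600 / κ`. Proof: write `a = ∫⁻ m`,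
`X = ∫⁻ iw m`, `Y = ∫⁻ nw m`, `θ = th μ H`. `iw · nw ≤ 1`, hence
`∫⁻ iw · src ≤ ∫⁻ iw f + 40 (2 H a + a²)`. `a² ≤ X Y` (CSX), so
`2 H a ≤ H² X · (160 / κ) + (κ / 160) Y` (from `2 √(xy) ≤ x + y`), and
`80 H a θ ≤ (6400 / κ) H² X θ + (κ / 4) Y θ = (1/4) μ H² (θ X) + (1/4) κ (θ Y)`: contributes
`≤ S / 2` after integration. And `40 θ a² = 40 θ⁻¹ (θ a)² ≤ 40 exp(μ K) (θ X) (θ Y)`, integral
`≤ 40 exp(μ K) S · S / κ`. Here `θ ≥ exp(-μ K)` on `[0, T]`, `θ ≤ 1`. -/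
def S_CR2 : Prop := ∀ (κ K T η S : ℝ) (H : ℝ → ℝ) (f h m : ℝ → E3 → ℝ≥0∞),
  0 < κ → 0 ≤ K → 0 ≤ T → 0 ≤ η → 0 ≤ S → Continuous H → (∀ t, 0 ≤ H t) →
  (∫ s in (0 : ℝ)..T, H s ^ 2) ≤ K →
  Measurable (Function.uncurry f) → Measurable (Function.uncurry h) →
  Measurable (Function.uncurry m) →
  (∀ t ∈ Icc 0 T, (∫⁻ ξ, h t ξ) ≤ ENNReal.ofReal (H t)) →
  (∫⁻ s in Ioc 0 T, ∫⁻ ξ, iw ξ * f s ξ) ≤ ENNReal.ofReal η →
  (∀ t ∈ Icc 0 T, th (25600 / κ) H t * (∫⁻ ξ, iw ξ * m t ξ) ≤ ENNReal.ofReal S) →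
  ENNReal.ofReal κ * (∫⁻ t in Ioc 0 T, th (25600 / κ) H t * ∫⁻ ξ, nw ξ * m t ξ)
    ≤ ENNReal.ofReal S →
  (∫⁻ t in Ioc 0 T, ENNReal.ofReal (25600 / κ * H t ^ 2) *
    (th (25600 / κ) H t * ∫⁻ ξ, iw ξ * m t ξ)) ≤ ENNReal.ofReal S →
  (∫⁻ s in Ioc 0 T, th (25600 / κ) H s * ∫⁻ ξ, iw ξ * src f h m s ξ)
    ≤ ENNReal.ofReal (η + S / 2 + 40 / κ * Real.exp (25600 / κ * K) * S ^ 2)

/-- CRT (60 lines, from CR1, CR2, ITM). The critical bound. Proof: induction on `n`: the three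
quantities of CR2 for `m = itm n` are `≤ S = 4 η` (for `n = 0` they are `0`): CR2 bounds
`∫⁻ th ∫⁻ iw src` by `η + 2 η + 40/κ exp(μK) 16 η² ≤ 4 η` because
`640 exp(μ K) η ≤ 25600 η exp(25600 K/κ) ≤ κ`, and CR1 with `F = src ..` gives the three bounds for
`itm (n+1)`. Finally `th ≥ exp(- μ K)` removes the weight. -/
def S_CRT : Prop := ∀ (κ K T η : ℝ) (H : ℝ → ℝ) (f h : ℝ → E3 → ℝ≥0∞),
  0 < κ → 0 ≤ K → 0 ≤ T → 0 ≤ η → Continuous H → (∀ t, 0 ≤ H t) →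
  (∫ s in (0 : ℝ)..T, H s ^ 2) ≤ K →
  Measurable (Function.uncurry f) → Measurable (Function.uncurry h) →
  (∀ t ∈ Icc 0 T, (∫⁻ ξ, h t ξ) ≤ ENNReal.ofReal (H t)) →
  (∫⁻ s in Ioc 0 T, ∫⁻ ξ, iw ξ * f s ξ) ≤ ENNReal.ofReal η →
  25600 * η * Real.exp (25600 / κ * K) ≤ κ → ∀ n,
  (∀ t ∈ Icc 0 T, (∫⁻ ξ, iw ξ * itm κ f h n t ξ)
    ≤ ENNReal.ofReal (4 * η * Real.exp (25600 / κ * K))) ∧
  ENNReal.ofReal κ * (∫⁻ t in Ioc 0 T, ∫⁻ ξ, nw ξ * itm κ f h n t ξ)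
    ≤ ENNReal.ofReal (4 * η * Real.exp (25600 / κ * K))

/-- WK1 (60 lines, from CVM). Weighted bounds for `cv`. Proof: `1 + |ξ| ≤ 2 max (1 + |ξ-η|) (1 + |η|)`
so `wk k ξ ≤ 2^k (wk k (ξ-η) + wk k η)`; insert, Tonelli. For the sup bound integrate the other
factor. `|ξ| ≤ |ξ-η| + |η|` for the last. -/
def S_WK1 : Prop := ∀ a b : E3 → ℝ≥0∞, Measurable a → Measurable b →
  (∀ k : ℕ, (∫⁻ ξ, wk k ξ * cv a b ξ)
    ≤ 2 ^ k * ((∫⁻ ξ, wk k ξ * a ξ) * (∫⁻ ξ, b ξ) + (∫⁻ ξ, a ξ) * ∫⁻ ξ, wk k ξ * b ξ)) ∧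
  (∀ (k : ℕ) (M M' : ℝ≥0∞), (∀ ξ, wk k ξ * a ξ ≤ M) → (∀ ξ, wk k ξ * b ξ ≤ M') →
    ∀ ξ, wk k ξ * cv a b ξ ≤ 2 ^ k * (M * (∫⁻ ξ, b ξ) + (∫⁻ ξ, a ξ) * M')) ∧
  (∫⁻ ξ, nw ξ * cv a b ξ)
    ≤ (∫⁻ ξ, nw ξ * a ξ) * (∫⁻ ξ, b ξ) + (∫⁻ ξ, a ξ) * ∫⁻ ξ, nw ξ * b ξ

/-- GRO (60 lines). Discrete Volterra inequality with the kernel `(t-s)^(-1/2)` and small `y`.
Proof: `∫_0^∞ r^(-1/2) exp(-Λ r) dr = √(π/Λ)`; choose `Λ ≥ 0` with `L √(π/Λ) ≤ 1/4`; by induction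
`a n t ≤ 2 D exp(Λ t)` since `∫⁻_{s≤t} (L (t-s)^(-1/2) + y n s) 2 D exp(Λ s)
≤ 2 D exp(Λ t) (1/4 + 1/4)`. `M = 2 D exp(Λ T)`. -/
def S_GRO : Prop := ∀ (L D : NNReal) (T : ℝ), ∃ M : NNReal, ∀ a y : ℕ → ℝ → ℝ≥0∞,
  (∀ n, Measurable (a n)) → (∀ n, Measurable (y n)) →
  (∀ n, (∫⁻ s in Ioc 0 T, y n s) ≤ 1 / 4) → (∀ t, a 0 t = 0) →
  (∀ n, ∀ t ∈ Icc 0 T, a (n + 1) t
    ≤ D + ∫⁻ s in Ioc 0 t, (L * ENNReal.ofReal ((t - s) ^ (-(1 / 2) : ℝ)) + y n s) * a n s) →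
  ∀ n, ∀ t ∈ Icc 0 T, a n t ≤ M

/-- WG1 (80 lines, from CVM, ITM, WK1, GRO). Uniform `L¹` bound of the iterates. Proof:
`|ξ| ht κ ξ r ≤ (κ r)^(-1/2)` (`x exp(-x²) ≤ 1`). With `a n t = ∫⁻ itm n t`, `Y n = ∫⁻ nw itm n`:
`a (n+1) t ≤ ∫⁻_{s≤t} (∫⁻ f s + 40 (κ (t-s))^(-1/2) 2 B a n s + 40 · 2 Y n s a n s)`
(for `cv m m`: `ht ≤ 1` and WK1 (3)); `80 ∫ Y n ≤ 80/6400 ≤ 1/4`; apply GRO. -/
def S_WG1 : Prop := ∀ (κ T : ℝ) (B : NNReal) (f h : ℝ → E3 → ℝ≥0∞), 0 < κ → 0 ≤ T →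
  Measurable (Function.uncurry f) → Measurable (Function.uncurry h) →
  (∀ t ∈ Icc 0 T, (∫⁻ ξ, f t ξ) ≤ B ∧ (∫⁻ ξ, h t ξ) ≤ B) →
  (∀ n, ENNReal.ofReal κ * (∫⁻ t in Ioc 0 T, ∫⁻ ξ, nw ξ * itm κ f h n t ξ)
    ≤ ENNReal.ofReal (κ / 6400)) →
  ∃ M : NNReal, ∀ n, ∀ t ∈ Icc 0 T, (∫⁻ ξ, itm κ f h n t ξ) ≤ M

/-- WG2 (70 lines, from CVM, ITM, WK1, GRO). Weighted `L¹` bounds, uniformly in `n`. Proof:
`a n t = ∫⁻ wk k itm n t`; by `|ξ| ht κ ξ r ≤ (κ r)^(-1/2)` and WK1 (1),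
`a (n+1) t ≤ T B + ∫⁻_{s≤t} 40 (κ (t-s))^(-1/2) 2^k (2 B · B + 2 B a n s + 2 B a n s) ds`; GRO with
`y = 0`. -/
def S_WG2 : Prop := ∀ (κ T : ℝ) (k : ℕ) (B : NNReal) (f h : ℝ → E3 → ℝ≥0∞), 0 < κ → 0 ≤ T →
  Measurable (Function.uncurry f) → Measurable (Function.uncurry h) →
  (∀ t ∈ Icc 0 T, (∫⁻ ξ, wk k ξ * f t ξ) ≤ B ∧ (∫⁻ ξ, wk k ξ * h t ξ) ≤ B) →
  (∀ n, ∀ t ∈ Icc 0 T, (∫⁻ ξ, itm κ f h n t ξ) ≤ B) →
  ∃ M : NNReal, ∀ n, ∀ t ∈ Icc 0 T, (∫⁻ ξ, wk k ξ * itm κ f h n t ξ) ≤ M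

/-- WG3 (70 lines, from CVM, ITM, WK1, GRO). Weighted sup bounds. Proof: as WG2 with
`a n t = ⨆ ξ, wk k ξ * itm n t ξ`; to avoid the measurability of a supremum prove directly by
induction `wk k ξ * itm n t ξ ≤ 2 D exp(Λ t)` with `Λ` as in GRO (WK1 (2) in the step). -/
def S_WG3 : Prop := ∀ (κ T : ℝ) (k : ℕ) (B : NNReal) (f h : ℝ → E3 → ℝ≥0∞), 0 < κ → 0 ≤ T →
  Measurable (Function.uncurry f) → Measurable (Function.uncurry h) →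
  (∀ t ∈ Icc 0 T, (∀ ξ, wk k ξ * f t ξ ≤ B) ∧ (∀ ξ, wk k ξ * h t ξ ≤ B) ∧ (∫⁻ ξ, h t ξ) ≤ B) →
  (∀ n, ∀ t ∈ Icc 0 T, (∫⁻ ξ, itm κ f h n t ξ) ≤ B) →
  ∃ M : NNReal, ∀ n, ∀ t ∈ Icc 0 T, ∀ ξ, wk k ξ * itm κ f h n t ξ ≤ M

/-- PER (60 lines, from CRT, WG1, WG2, WG3, ITM, CVM). Proof: `ITM` and `lintegral_iSup` pass the
uniform bounds to the supremum; `∫⁻_(Ioc 0 T) ≤ ∫⁻_(Ioi 0)`. `4 η exp ≤ κ/6400`. -/
def S_PER : Prop := ∀ (κ K η : ℝ) (H : ℝ → ℝ) (f h : ℝ → E3 → ℝ≥0∞),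
  0 < κ → 0 ≤ K → 0 ≤ η → Continuous H → (∀ t, 0 ≤ H t) →
  (∀ T, 0 ≤ T → (∫ s in (0 : ℝ)..T, H s ^ 2) ≤ K) → Tame f → Tame h →
  (∀ t, 0 ≤ t → (∫⁻ ξ, h t ξ) ≤ ENNReal.ofReal (H t)) →
  (∫⁻ s in Ioi 0, ∫⁻ ξ, iw ξ * f s ξ) ≤ ENNReal.ofReal η →
  25600 * η * Real.exp (25600 / κ * K) ≤ κ →
  Uni κ f h ∧ Tame (fun t ξ => ⨆ n, itm κ f h n t ξ) ∧
  ∀ t, 0 ≤ t → (∫⁻ ξ, iw ξ * ⨆ n, itm κ f h n t ξ)
    ≤ ENNReal.ofReal (4 * η * Real.exp (25600 / κ * K))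

/-- NLB (50 lines). Bound for `nl`. Proof: `‖dt ξ v‖ ≤ √3 ‖ξ‖ ‖v‖` (Cauchy-Schwarz, `‖v‖` the sup
norm), `‖lp ξ w‖ ≤ ‖w‖ + √3 ‖w‖` (`|ξ k| ≤ ‖ξ‖`; at `ξ = 0` trivial), so the factor is
`2π √3 (1 + √3) < 40`; `enorm_integral_le_lintegral_enorm`. -/
def S_NLB : Prop := ∀ (a b : E3 → C3) (ξ : E3),
  ‖nl a b ξ‖ₑ ≤ 40 * nw ξ * cv (fun η => ‖a η‖ₑ) (fun η => ‖b η‖ₑ) ξ

/-- NLM (30 lines). Joint measurability. Proof: `StronglyMeasurable.integral_prod_right'` for the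
integral, `lp` is a measurable function of `(ξ, v)`. -/
def S_NLM : Prop := ∀ a b : ℝ → E3 → C3, Measurable (Function.uncurry a) →
  Measurable (Function.uncurry b) → Measurable fun p : ℝ × E3 => nl (a p.1) (b p.1) p.2

/-- NLL (60 lines). Additivity of `nl` in both arguments where the convolutions are finite. Proof:
the integrands `η ↦ dt ξ (a (ξ - η)) • b η` are integrable (norm `≤ √3 ‖ξ‖ ‖a (ξ-η)‖ ‖b η‖`),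
`integral_add`, `lp ξ` is additive. -/
def S_NLL : Prop := ∀ (a a' b b' : E3 → C3), Measurable a → Measurable a' → Measurable b →
  Measurable b' → ∀ ξ : E3,
  cv (fun η => ‖a η‖ₑ) (fun η => ‖b η‖ₑ) ξ < ⊤ → cv (fun η => ‖a' η‖ₑ) (fun η => ‖b η‖ₑ) ξ < ⊤ →
  cv (fun η => ‖a η‖ₑ) (fun η => ‖b' η‖ₑ) ξ < ⊤ →
  nl (fun η => a η + a' η) b ξ = nl a b ξ + nl a' b ξ ∧
  nl (fun η => a η - a' η) b ξ = nl a b ξ - nl a' b ξ ∧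
  nl a (fun η => b η + b' η) ξ = nl a b ξ + nl a b' ξ ∧
  nl a (fun η => b η - b' η) ξ = nl a b ξ - nl a b' ξ

/-- VC1 (100 lines, from CVM, ITM, NLB, NLM, NLL). Differences of the Picard iterates. Proof: all
`itv n` are jointly measurable. Induction on `n`; let `d = ‖itv (n+1) - itv n‖ₑ`, `m = itm`. All
convolutions are finite by `Uni` (`cv f g ξ ≤ sup f · ∫⁻ g`). Then
`itv (n+2) - itv (n+1) = ∫ ht (nl g d⃗ + nl d⃗ g + nl d⃗ v_{n+1} + nl v_n d⃗)`, so by NLB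
`‖..‖ₑ + m (n+1) ≤ dh (40 nw (cv h d + cv d h + cv d m_{n+1} + cv m_n d)) + dh (f + 40 nw (cv h m_n
+ cv m_n h + cv m_n m_n))`, and by additivity of `cv`, the induction hypothesis
`d + m_n ≤ m_{n+1}` and `cv d m_{n+1} + cv m_n (d + m_n) ≤ cv (d + m_n) m_{n+1}
≤ cv m_{n+1} m_{n+1}` this is `≤ dh (src f h m_{n+1})`. -/
def S_VC1 : Prop := ∀ (κ : ℝ) (F g : ℝ → E3 → C3), 0 < κ → Measurable (Function.uncurry F) →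
  Measurable (Function.uncurry g) → Uni κ (nm F) (nm g) → ∀ n,
  Measurable (Function.uncurry (itv κ F g n)) ∧ ∀ t, 0 ≤ t → ∀ ξ,
    ‖itv κ F g n t ξ‖ₑ ≤ itm κ (nm F) (nm g) n t ξ ∧
    ‖itv κ F g (n + 1) t ξ - itv κ F g n t ξ‖ₑ + itm κ (nm F) (nm g) n t ξ
      ≤ itm κ (nm F) (nm g) (n + 1) t ξ

/-- VC2 (110 lines, from CVM, ITM, NLB, NLM, VC1). The iterates converge to a solution. Proof: by
VC1 and `Uni` the series `Σ ‖itv (n+1) - itv n‖` is finite for `t ≥ 0`; `v t ξ` the limit (for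
`t < 0` put `v = 0`), measurable as a limit (`measurable_of_tendsto_metrizable`, after
multiplication with the indicator of `t ≥ 0`). The equation: dominated convergence in `η` (domination
`C h(s, ξ-η) M` etc., integrable by `Uni`) gives `nl (g s) (itv n s) ξ → nl (g s) (v s) ξ` and so
on, then dominated convergence in `s ∈ Ioc 0 t` (the integrands are bounded by a constant by NLB and
`Uni`). -/
def S_VC2 : Prop := ∀ (κ : ℝ) (F g : ℝ → E3 → C3), 0 < κ → Measurable (Function.uncurry F) →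
  Measurable (Function.uncurry g) → Uni κ (nm F) (nm g) →
  ∃ v : ℝ → E3 → C3, Measurable (Function.uncurry v) ∧ ∀ t, 0 ≤ t → ∀ ξ,
    ‖v t ξ‖ₑ ≤ (⨆ n, itm κ (nm F) (nm g) n t ξ) ∧
    Tendsto (fun n => itv κ F g n t ξ) atTop (𝓝 (v t ξ)) ∧ v t ξ = stp κ F g v t ξ

/-- SY1 (100 lines). Symmetries of `nl`. Proof: `η ↦ -η` and `η ↦ rt θ η` preserve Lebesgue measure
(`rt θ` is a linear isometry), the integrals may be undefined (then both sides are `0`).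
`dt (rt θ ξ) (rc θ v) = dt ξ v`, `‖rt θ ξ‖ = ‖ξ‖`, `lp (rt θ ξ) (rc θ w) = rc θ (lp ξ w)`; `conj`
and `rc θ` are continuous (real-)linear equivalences and commute with the integral.
`dt ξ (lp ξ w) = 0` (also for `ξ = 0`). -/
def S_SY1 : Prop :=
  (∀ a b : E3 → C3, Herm a → Herm b → Herm (nl a b)) ∧
  (∀ a b : E3 → C3, Rot a → Rot b → Rot (nl a b)) ∧ (∀ a b : E3 → C3, Dvf (nl a b))

/-- SY2 (70 lines, from SY1). Proof: induction on `n`; the three properties pass through the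
integral in `s` (as in SY1; if it is undefined everything is `0`), `ht` depends on `‖ξ‖` only. -/
def S_SY2 : Prop := ∀ (κ : ℝ) (F g : ℝ → E3 → C3), (∀ t, Sym (F t)) → (∀ t, Sym (g t)) →
  ∀ n t, Sym (itv κ F g n t)

/-- PTB (80 lines, from PER, VC2, SY1, SY2, NLB, NLM, NLL, CVM). THE PERTURBATION THEOREM: a curve
`g` with the small residual `R` is near a solution. Proof: `F = -R`; PER with `f = nm R`, `h = nm g`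
(`η` as given), VC2 gives `v`, `u = g + v`. `v 0 = 0` since `stp` at `t = 0` is an integral over the
empty set. `nl (g+v) (g+v) = nl g g + nl g v + nl v g + nl v v` (NLL), so the equation of `g` and
`v = stp κ (-R) g v` add up to `Mild`. Symmetry passes to the limit `v`; for `t < 0` the values of
`u` are irrelevant: put `v t = 0` there. -/
def S_PTB : Prop := ∀ (κ K η : ℝ) (H : ℝ → ℝ) (R g : ℝ → E3 → C3),
  0 < κ → 0 ≤ K → 0 ≤ η → Continuous H → (∀ t, 0 ≤ H t) →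
  (∀ T, 0 ≤ T → (∫ s in (0 : ℝ)..T, H s ^ 2) ≤ K) → TameV R → TameV g →
  (∀ t, Sym (R t)) → (∀ t, Sym (g t)) →
  (∀ t, 0 ≤ t → (∫⁻ ξ, nm g t ξ) ≤ ENNReal.ofReal (H t)) →
  (∫⁻ s in Ioi 0, ∫⁻ ξ, iw ξ * nm R s ξ) ≤ ENNReal.ofReal η →
  25600 * η * Real.exp (25600 / κ * K) ≤ κ →
  (∀ t, 0 ≤ t → ∀ ξ, g t ξ = ht κ ξ t • g 0 ξ
    + ∫ s in Ioc 0 t, ht κ ξ (t - s) • (nl (g s) (g s) ξ + R s ξ)) →
  ∃ u : ℝ → E3 → C3, TameV u ∧ Mild κ u ∧ (∀ t, 0 ≤ t → Sym (u t)) ∧ (∀ ξ, u 0 ξ = g 0 ξ) ∧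
    ∀ t, 0 ≤ t → (∫⁻ ξ, iw ξ * ‖u t ξ - g t ξ‖ₑ)
      ≤ ENNReal.ofReal (4 * η * Real.exp (25600 / κ * K))

/-! ### From the Fourier side to the physical side -/

/-- FI1 (80 lines). Inverse Fourier transforms of functions with all moments. Proof: Mathlib:
`𝓕⁻ a x = 𝓕 a (-x)`, `Real.contDiff_fourier` / `VectorFourier.contDiff_fourierIntegral`,
`Real.hasFDerivAt_fourier` (names may differ), bound of the iterated derivatives by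
`VectorFourier.norm_iteratedFDeriv_fourierIntegral_le`-type lemmas or by induction. -/
def S_FI1 : Prop :=
  (∀ a : E3 → ℂ, Measurable a → (∀ k : ℕ, (∫⁻ ξ, wk k ξ * ‖a ξ‖ₑ) < ⊤) →
    ContDiff ℝ ∞ (𝓕⁻ a) ∧
    ∀ (j : Fin 3) (x : E3), fderiv ℝ (𝓕⁻ a) x (EuclideanSpace.single j 1)
      = 𝓕⁻ (fun ξ => 2 * Real.pi * Complex.I * (ξ j : ℂ) * a ξ) x) ∧
  ∀ n : ℕ, ∃ C : ℝ, 0 ≤ C ∧ ∀ a : E3 → ℂ, Measurable a →
    (∀ k : ℕ, (∫⁻ ξ, wk k ξ * ‖a ξ‖ₑ) < ⊤) → ∀ x,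
      ‖iteratedFDeriv ℝ n (𝓕⁻ a) x‖ ≤ C * (∫⁻ ξ, wk n ξ * ‖a ξ‖ₑ).toReal

/-- FI2 (90 lines). Plancherel inequality. Proof: for `a` integrable and bounded, `U = 𝓕⁻ a`:
`∫ |U|² exp(-ε |x|²) dx = ∬ a(ξ) conj a(η) (π/ε)^(3/2) exp(-π² |ξ-η|²/ε) dξ dη ≤ ∫ |a|²` (Fubini,
`|a(ξ) a(η)| ≤ (|a(ξ)|² + |a(η)|²)/2`, the Gaussian has mass one), then `ε → 0` by Fatou. (Or use
Plancherel's theorem if Mathlib has it for `L¹ ∩ L²`.) -/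
def S_FI2 : Prop := ∀ a : E3 → ℂ, Measurable a → (∫⁻ ξ, ‖a ξ‖ₑ) < ⊤ →
  (∫⁻ x, ‖𝓕⁻ a x‖ₑ ^ 2) ≤ ∫⁻ ξ, ‖a ξ‖ₑ ^ 2

/-- FI3 (60 lines, from FI1). Symmetries of `phy`. Proof: `Herm` makes `𝓕⁻ (a k) x` real (substitute
`ξ ↦ -ξ`), `Rot` gives `Axi` by the substitution `ξ ↦ rt θ ξ` (`⟪rt θ x, rt θ ξ⟫ = ⟪x, ξ⟫`), and
`Dvf` gives `div = 0` by FI1. -/
def S_FI3 : Prop := ∀ a : E3 → C3, Measurable a → (∀ k : ℕ, (∫⁻ ξ, wk k ξ * ‖a ξ‖ₑ) < ⊤) →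
  (Herm a → ∀ x k, ((phy a x k : ℝ) : ℂ) = 𝓕⁻ (fun ξ => a ξ k) x) ∧
  (Herm a → Rot a → Axi (phy a)) ∧
  (Herm a → Dvf a → ∀ x, ∑ j, pd j (fun y => phy a y j) x = 0) ∧
  ContDiff ℝ ∞ (phy a)

/-- FI4 (90 lines, from NLB, NLM, CVM, WK1). Time regularity on the Fourier side. Proof: (a) by the
mild equation and NLB and the sup bounds, `t ↦ u t ξ` is continuous on `[0, ∞)` (integrand bounded
on bounded time intervals); (b) `t ↦ nl (u t) (u t) ξ` is continuous by dominated convergence: on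
`[0, T]` the integrand is `≤ C_ξ M² (1 + |η|)^(-4)`, `M` the constant of `Tame` for `k = 4`; (c) the
derivative of the mild equation (write `ht κ ξ (t - s) = ht κ ξ t · exp(κ |ξ|² s)`, product rule,
fundamental theorem of calculus); (d) `nl (u t) (u t)` has all weights by NLB, WK1. -/
def S_FI4 : Prop := ∀ (κ : ℝ) (u : ℝ → E3 → C3), 0 < κ → TameV u → Mild κ u →
  (∀ ξ, ContinuousOn (fun t => u t ξ) (Ici 0)) ∧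
  (∀ ξ, ContinuousOn (fun t => nl (u t) (u t) ξ) (Ici 0)) ∧
  TameV (fun t ξ => nl (u t) (u t) ξ) ∧
  ∀ t, 0 ≤ t → ∀ ξ, HasDerivWithinAt (fun s => u s ξ)
    (-(κ * ‖ξ‖ ^ 2) • u t ξ + nl (u t) (u t) ξ) (Ici 0) t

/-- FI5 (70 lines). Differentiation under `𝓕⁻`. Proof: fix `t`, `T = t + 1`; by the mean value
inequality the difference quotients on `[0, T]` are bounded by `sup_s ‖a' s ξ‖ ≤ M (1+|ξ|)^(-4)`
(`Tame` with `k = 4`), an integrable function; dominated convergence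
(`hasDerivWithinAt` via sequences or `hasDerivWithinAt_integral..`). -/
def S_FI5 : Prop := ∀ a a' : ℝ → E3 → ℂ, Measurable (Function.uncurry a) →
  Measurable (Function.uncurry a') → Tame (fun t ξ => ‖a t ξ‖ₑ) → Tame (fun t ξ => ‖a' t ξ‖ₑ) →
  (∀ t, 0 ≤ t → ∀ ξ, HasDerivWithinAt (fun s => a s ξ) (a' t ξ) (Ici 0) t) →
  ∀ t, 0 ≤ t → ∀ x, HasDerivWithinAt (fun s => 𝓕⁻ (a s) x) (𝓕⁻ (a' t) x) (Ici 0) t

/-- FI6 (90 lines, from FI1, FI3). The nonlinearity in physical space. Proof: for `a` with all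
moments in `L¹`, `U = phy a`: the product rule `𝓕⁻ (∫ a_j(ξ-η) a_k(η) dη) x = U_j(x) U_k(x)` (Fubini).
Put `p = Re 𝓕⁻ (fun ξ => -(Σ_{j,k} ξ_j ξ_k ∫ a_j(ξ-η) a_k(η) dη) / |ξ|²)`; by FI1
`𝓕⁻ (nl a a k) = - Σ_j ∂_j (U_j U_k) - ∂_k p`: indeed `-(2πi) lp ξ w k = -(2πi) w k + (2πi) ξ_k dt ξ w / |ξ|²`
with `w = ∫ dt ξ (a (ξ-η)) • a η`, `w_k = Σ_j ξ_j ∫ a_j a_k`; finally `Σ_j ∂_j U_j = 0`. The Fourier
transform of `p` has all moments in `L¹` (`|..| ≤ 9 (|a| * |a|)`). -/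
def S_FI6 : Prop := ∀ a : E3 → C3, Measurable a → (∀ k : ℕ, (∫⁻ ξ, wk k ξ * ‖a ξ‖ₑ) < ⊤) →
  Herm a → Dvf a → ∃ p : E3 → ℝ, ContDiff ℝ ∞ p ∧ ∀ x k,
    (𝓕⁻ (fun ξ => nl a a ξ k) x).re
      = -(∑ j, phy a x j * pd j (fun y => phy a y k) x) - pd k p x

/-- PHY (100 lines, from FI1 - FI6, NLB, CVM, WK1, SY1). THE PHYSICAL SOLUTION. Proof: `u t` is the
Fourier transform of `phy (u t)`. Equation: FI5 for the components of `u` with the derivative from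
FI4 (tame), real parts; `-(4π²ν) |ξ|² u_k` is the transform of `ν Δ` (FI1 twice), FI6 for the rest.
Bounds: FI1, `iteratedFDeriv` of `phy` by its components; square integrability: each partial
derivative of order `n` is `𝓕⁻` of a monomial times `u_k` (FI1), FI2 and
`∫ |ξ|^(2n) |u|² ≤ sup (..) ∫ (..)`. -/
def S_PHY : Prop := ∀ (ν : ℝ) (u : ℝ → E3 → C3), 0 < ν → TameV u → Mild (4 * Real.pi ^ 2 * ν) u →
  (∀ t, 0 ≤ t → Sym (u t)) → ∃ p : ℝ → E3 → ℝ, IsSol ν (fun t => phy (u t)) p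

end Pool.Agent.Run7.h148.AX
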