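import Pool.Agent.Run7.h148.AX.Stm1

/-!
Project AX, PART II: the fast wave and its residual. Conventions as in part I. `N = NN n = n + 1`,
`τ = ta ν n t = ν N² t`, `z = x 2`.
-/

set_option autoImplicit false

open MeasureTheory Set Filter Topology
open scoped ENNReal ContDiff FourierTransform

namespace Pool.Agent.Run7.h148.AX

/-- OC1 (70 lines). The classes are monotone and multiplicative. Proof: `span_induction` twice;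
generators: `N^q N^q' = N^(q+q')` (`N > 0`), powers and exponentials add, `Cc` is closed under
products, `cos a cos b = (cos (a-b) + cos (a+b))/2` and so on with `k ± k'`. -/
def S_OC1 : Prop :=
  (∀ (ν : ℝ) (p q : ℤ), p ≤ q → OO ν p ≤ OO ν q) ∧
  (∀ (ν : ℝ) (p q : ℤ) (f g : Fam), f ∈ OO ν p → g ∈ OO ν q → f * g ∈ OO ν (p + q))

/-- OC2 (90 lines). Smoothness and derivatives. Proof: `span_induction`; for generators compute: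
`∂_i (ρ cos(kNz)) = ∂_iρ cos(kNz) - [i = 2] k N ρ sin(kNz)`, `∂_t (τ^l e^{-jτ}) = ν N² (l τ^(l-1) - j τ^l) e^{-jτ}`. -/
def S_OC2 : Prop := ∀ (ν : ℝ) (p : ℤ) (f : Fam), f ∈ OO ν p →
  (∀ n, ContDiff ℝ ∞ fun z : ℝ × E3 => f n z.1 z.2) ∧ (∀ n t, Cc (f n t)) ∧
  dx 0 f ∈ OO ν p ∧ dx 1 f ∈ OO ν p ∧ dx 2 f ∈ OO ν (p + 1) ∧ dtm f ∈ OO ν (p + 2)

/-- OC3 (30 lines). Multiplication with `e^{-iτ} ψ(x)`, `ψ` smooth. Proof: `span_induction`. -/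
def S_OC3 : Prop := ∀ (ν : ℝ) (p : ℤ) (f : Fam) (i : ℕ) (ψ : E3 → ℝ), ContDiff ℝ ∞ ψ →
  f ∈ OO ν p → (fun n t x => Real.exp (-(i * ta ν n t)) * ψ x * f n t x) ∈ OO ν p

/-- OC4 (110 lines). Fourier transforms. Proof: `span_induction`; for a generator
`𝓕 (ρ cos(kNz)) ξ = (𝓕ρ(ξ - ζ) + 𝓕ρ(ξ + ζ))/2`, `ζ = kN/(2π) e_2`, `𝓕ρ` decays faster than all powers
(`ρ` is Schwartz: `HasCompactSupport.toSchwartzMap`), `1 + |ξ| ≤ (1 + |ξ-ζ|)(1 + |ζ|)`,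
`1 + |ζ| ≤ (1 + |k|) N`, and `τ^l e^{-jτ} ≤ C_l e^{-τ/2}` for `τ ≥ 0`, `j ≥ 1`. -/
def S_OC4 : Prop := ∀ (ν : ℝ) (p : ℤ) (f : Fam), 0 < ν → f ∈ OO ν p →
  (∀ n, Measurable fun z : ℝ × E3 => 𝓕 (fun x => ((f n z.1 x : ℝ) : ℂ)) z.2) ∧
  ∀ k : ℕ, ∃ C : ℝ, 0 ≤ C ∧ ∀ (n : ℕ) (t : ℝ), 0 ≤ t →
    (∀ ξ, (1 + ‖ξ‖) ^ k * ‖𝓕 (fun x => ((f n t x : ℝ) : ℂ)) ξ‖
      ≤ C * NN n ^ (p + k) * Real.exp (-(ta ν n t / 2))) ∧
    (∫⁻ ξ, wk k ξ * ‖𝓕 (fun x => ((f n t x : ℝ) : ℂ)) ξ‖ₑ)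
      ≤ ENNReal.ofReal (C * NN n ^ (p + k) * Real.exp (-(ta ν n t / 2)))

/-- OC5 (50 lines). Oscillation. Proof: `∫ ρ cos(kNz) = Re 𝓕ρ(kN/(2π) e_2)`, and `𝓕ρ` decays faster
than all powers. -/
def S_OC5 : Prop := ∀ (ρ : E3 → ℝ) (q k : ℤ), Cc ρ → k ≠ 0 →
  Tendsto (fun n : ℕ => NN n ^ q * ∫ x, ρ x * Real.cos (k * NN n * x 2)) atTop (𝓝 0) ∧
  Tendsto (fun n : ℕ => NN n ^ q * ∫ x, ρ x * Real.sin (k * NN n * x 2)) atTop (𝓝 0)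

/-- OC6 (50 lines). Time derivative of Fourier transforms. Proof: `span_induction`; for a generator
the transform is `c(t) · 𝓕(ρ trig) ξ` with `c(t) = N^q τ^l e^{-jτ}`. -/
def S_OC6 : Prop := ∀ (ν : ℝ) (p : ℤ) (f : Fam), f ∈ OO ν p → ∀ n t ξ,
  HasDerivAt (fun s => 𝓕 (fun x => ((f n s x : ℝ) : ℂ)) ξ)
    (𝓕 (fun x => ((dtm f n t x : ℝ) : ℂ)) ξ) t

/-- LIN (70 lines). The heat operator on generators, an exact identity. Proof: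
`-ν ∂_2²(ρ cos(kNz)) = -ν ∂_2²ρ cos + 2νkN ∂_2ρ sin + νk²N² ρ cos`,
`-ν ∂_2²(ρ sin(kNz)) = -ν ∂_2²ρ sin - 2νkN ∂_2ρ cos + νk²N² ρ sin`, and the time derivative. -/
def S_LIN : Prop := ∀ (ν : ℝ) (q : ℤ) (l j : ℕ) (k : ℤ) (ρ : E3 → ℝ), Cc ρ → ∀ n t x,
  (dtm (Tc ν q l j k ρ) n t x - ν * (∑ i, dx i (dx i (Tc ν q l j k ρ)) n t x)
    = ν * l * Tc ν (q + 2) (l - 1) j k ρ n t x + ν * (k ^ 2 - j) * Tc ν (q + 2) l j k ρ n t x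
      + 2 * ν * k * Ts ν (q + 1) l j k (pd 2 ρ) n t x
      - ν * Tc ν q l j k (fun y => ∑ i, pd i (pd i ρ) y) n t x) ∧
  (dtm (Ts ν q l j k ρ) n t x - ν * (∑ i, dx i (dx i (Ts ν q l j k ρ)) n t x)
    = ν * l * Ts ν (q + 2) (l - 1) j k ρ n t x + ν * (k ^ 2 - j) * Ts ν (q + 2) l j k ρ n t x
      - 2 * ν * k * Tc ν (q + 1) l j k (pd 2 ρ) n t x
      - ν * Ts ν q l j k (fun y => ∑ i, pd i (pd i ρ) y) n t x)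

/-- WST (90 lines, from OC1). The structure of the wave up to order `-1`. Proof: insert the
definitions: `Hc k cos = Tc 1 0 1 1 A_k`, its correction is `Ts 0 0 1 1 (∂_2A_k - [k=2] div A)`;
`Hs k sin = -2 Ts 0 1 1 1 (∂_2A_k) - (1/2ν) Ts 0 0 3 1 (V_2 A_k)`; `Hk k cos = -(1/4ν) Tc 0 0 2 2 (FA k)`;
the corrections of the last two are in the class of order `-1` (they are finite sums of `N⁻¹ τ^l e^{-jτ} ρ trig`,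
`j ≥ 1`). -/
def S_WST : Prop := ∀ (ν : ℝ) (A V : E3 → E3), 0 < ν → Adm A → ContDiff ℝ ∞ V → ∀ k : Fin 3,
  (ww ν A V k - Tc ν 1 0 1 1 (fun x => A x k) + (2 : ℝ) • Ts ν 0 1 1 1 (pd 2 fun y => A y k)
    + (1 / (2 * ν)) • Ts ν 0 0 3 1 (fun x => V x 2 * A x k)
    + (1 / (4 * ν)) • Tc ν 0 0 2 2 (FA A k)
    - Ts ν 0 0 1 1 (fun x => pd 2 (fun y => A y k) x - if k = 2 then dvA A x else 0))
    ∈ OO ν (-1)

/-- WDV (70 lines). The wave is divergence free, smooth and compactly supported. Proof: each block is: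
with `H 2 = 0`, `div (H cos(mNz)) = (div H) cos`, and the correction has the divergence
`(mN)⁻¹ [sin ∂_2 (div H) - ∂_2 (sin (div H))] = -cos (div H)`; the sine block in the same way
(mixed partial derivatives commute). Here `Hc, Hs, Hk` have vanishing component `2` (also
`FA A 2 = 0`). -/
def S_WDV : Prop := ∀ (ν : ℝ) (A V : E3 → E3), 0 < ν → Adm A → ContDiff ℝ ∞ V → ∀ n t,
  (∀ x, ∑ k, pd k (ww ν A V k n t) x = 0) ∧ ContDiff ℝ ∞ (wf ν A V n t) ∧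
  HasCompactSupport (wf ν A V n t)

/-- WAX (110 lines). The wave is axisymmetric. Proof: for smooth axisymmetric `U`, differentiate
`U (rt θ x) = rt θ (U x)`: `Σ_j R_jl ∂_jU_k(Rx) = Σ_m R_km ∂_lU_m(x)`, so `∂_jU_k(Rx) = Σ R_jl R_km ∂_lU_m(x)`.
Hence `div U` is invariant, `x ↦ (∂_2 U_k)_k` and `(U · ∇) U` are axisymmetric; products with
invariant scalars (functions of `z`, `V_2`, `div A`) and invariant scalars times `e_2` are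
axisymmetric; sums too. -/
def S_WAX : Prop := ∀ (ν : ℝ) (A V : E3 → E3), 0 < ν → Adm A → ContDiff ℝ ∞ V → Axi V → ∀ n t,
  Axi (wf ν A V n t)

/-- RS1 (60 lines, from OC1, OC2, LIN, WST). Linear part of the residual. Proof: apply LIN to the
terms of WST: order 2 terms: `2ν Ts 2 0 1 1 ∂_2A_k` from the first, `-2ν Ts 2 0 1 1 ∂_2A_k` from
`-2 Ts 0 1 1 1`, `-(1/2ν) ν (1-3) Ts 2 0 3 1 = Ts 2 0 3 1 (V_2A_k)`, `-(1/4ν) ν (4-2) Tc 2 0 2 2 (FA k)`;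
all others have order `≤ 1` (for the remainder of order `-1` use OC2). -/
def S_RS1 : Prop := ∀ (ν : ℝ) (A V : E3 → E3), 0 < ν → Adm A → ContDiff ℝ ∞ V → ∀ k : Fin 3,
  ((fun n t x => dtm (ww ν A V k) n t x - ν * (∑ j, dx j (dx j (ww ν A V k)) n t x))
    - Ts ν 2 0 3 1 (fun x => V x 2 * A x k) + (1 / 2 : ℝ) • Tc ν 2 0 2 2 (FA A k)) ∈ OO ν 1

/-- RS2 (50 lines, from OC1, OC2, OC3, WST). Transport terms. Proof: `ww k = Tc 1 0 1 1 A_k + (order 0)`;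
`∂_0, ∂_1` keep the order, `∂_2` raises it by one; the only term of order 2 is
`e^{-2τ} V_2 · (-N² e^{-τ} A_k sin(Nz)) = -Ts 2 0 3 1 (V_2A_k)`. -/
def S_RS2 : Prop := ∀ (ν : ℝ) (A V : E3 → E3), 0 < ν → Adm A → ContDiff ℝ ∞ V → ∀ k : Fin 3,
  ((fun n t x => Real.exp (-(2 * ta ν n t)) * (∑ j, (V x j * dx j (ww ν A V k) n t x
        + ww ν A V j n t x * pd j (fun y => V y k) x)))
    + Ts ν 2 0 3 1 (fun x => V x 2 * A x k)) ∈ OO ν 1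

/-- RS3 (90 lines, from OC1, OC2, WST). Quadratic terms. Proof: `w = w0 + w1`, `w0 k = Tc 1 0 1 1 A_k`
(`w0 2 = 0`), `w1` of order 0, `w 2 = -Ts 0 0 1 1 (div A) + (order -1)` (WST with `k = 2`, where
`A_2 = 0`, `FA A 2 = 0`). `Σ w0_j ∂_j w0_k = N² e^{-2τ} cos²(Nz) (A·∇)A_k`;
`w0_j ∂_j w1_k` (`j = 0, 1`), `w1_j ∂_j w1_k`, `w1_j ∂_j w0_k` (`j = 0, 1`) have order `≤ 1`;
`w_2 ∂_2 w0_k = (-e^{-τ} (div A) sin(Nz)) (-N² e^{-τ} A_k sin(Nz)) + (order 1)`. The sum is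
`N² e^{-2τ} ((A·∇)A_k cos² + (div A) A_k sin²) = (N²/2) e^{-2τ} (Σ_j ∂_j(A_jA_k) + cos(2Nz) FA k)`. -/
def S_RS3 : Prop := ∀ (ν : ℝ) (A V : E3 → E3), 0 < ν → Adm A → ContDiff ℝ ∞ V → ∀ k : Fin 3,
  ((fun n t x => (∑ j, ww ν A V j n t x * dx j (ww ν A V k) n t x)
      - NN n ^ 2 / 2 * Real.exp (-(2 * ta ν n t)) * (∑ j, pd j (fun y => A y j * A y k) x))
    - (1 / 2 : ℝ) • Tc ν 2 0 2 2 (FA A k)) ∈ OO ν 1

/-- RES (30 lines, from RS1, RS2, RS3, WST, OC1). The residual has order 1, the wave has order 1.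
Proof: add up. -/
def S_RES : Prop := ∀ (ν : ℝ) (A V : E3 → E3), 0 < ν → Adm A → ContDiff ℝ ∞ V → ∀ k : Fin 3,
  Rw ν A V k ∈ OO ν 1 ∧ ww ν A V k ∈ OO ν 1

/-- FTF (90 lines). Fourier transforms of smooth compactly supported vector fields. Proof: the
components are Schwartz functions; inversion `𝓕⁻ 𝓕 = id`; `Herm` because the field is real; `Rot`
by the substitution `x ↦ rt θ x`; `𝓕 (∂_j f) = 2πi ξ_j 𝓕 f`. -/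
def S_FTF : Prop :=
  (∀ f : E3 → E3, ContDiff ℝ ∞ f → HasCompactSupport f →
    Measurable (fth f) ∧
    (∀ k : ℕ, ∃ M : NNReal, (∫⁻ ξ, wk k ξ * ‖fth f ξ‖ₑ) ≤ M ∧ ∀ ξ, wk k ξ * ‖fth f ξ‖ₑ ≤ M) ∧
    Herm (fth f) ∧ (Axi f → Rot (fth f)) ∧
    ((∀ x, ∑ j, pd j (fun y => f y j) x = 0) → Dvf (fth f)) ∧
    (∀ x k, 𝓕⁻ (fun ξ => fth f ξ k) x = ((f x k : ℝ) : ℂ)) ∧ phy (fth f) = f) ∧
  (∀ ρ : E3 → ℝ, Cc ρ → ∀ (j : Fin 3) (ξ : E3),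
    𝓕 (fun x => ((pd j ρ x : ℝ) : ℂ)) ξ
      = 2 * Real.pi * Complex.I * (ξ j : ℂ) * 𝓕 (fun x => ((ρ x : ℝ) : ℂ)) ξ)

/-- CNV (40 lines). Product rule for Fourier transforms. Proof: Fubini
(`(x, η) ↦ a η g x` is integrable). -/
def S_CNV : Prop := ∀ a g : E3 → ℂ, Integrable a → Integrable g → ∀ ξ,
  𝓕 (fun x => 𝓕⁻ a x * g x) ξ = ∫ η, a η * 𝓕 g (ξ - η)

/-- BIL (80 lines, from FI1, FI3, FTF, CNV). The nonlinearity. Proof: `U = phy a` has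
`(U x k : ℂ) = 𝓕⁻ (a k) x` (FI3), `U` smooth, so `U_j W_k` is `Cc`;
`𝓕 (∂_j (U_j W_k)) = 2πi ξ_j 𝓕 (U_j W_k) = 2πi ξ_j ∫ a_j(η) 𝓕W_k(ξ-η) dη` (CNV; substitute
`η ↦ ξ - η` where needed), sum over `j` and apply `lp ξ`, which commutes with scalars; the sum
over `j` goes inside the integral (all products are integrable). -/
def S_BIL : Prop := ∀ (a : E3 → C3) (W : E3 → E3), Measurable a →
  (∀ k : ℕ, (∫⁻ ξ, wk k ξ * ‖a ξ‖ₑ) < ⊤) → Herm a → ContDiff ℝ ∞ W → HasCompactSupport W → ∀ ξ,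
  lp ξ (fun k => 𝓕 (fun x => (((∑ j, pd j (fun y => phy a y j * W y k) x) : ℝ) : ℂ)) ξ)
    = -nl a (fth W) ξ ∧
  lp ξ (fun k => 𝓕 (fun x => (((∑ j, pd j (fun y => W y j * phy a y k) x) : ℝ) : ℂ)) ξ)
    = -nl (fth W) a ξ

/-- NLS (20 lines). Scalars. Proof: `integral_smul`, linearity of `dt ξ`, `lp ξ`. -/
def S_NLS : Prop := ∀ (c : ℝ) (a b : E3 → C3) (ξ : E3),
  nl (fun η => c • a η) b ξ = c • nl a b ξ ∧ nl a (fun η => c • b η) ξ = c • nl a b ξ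

/-- VVP (50 lines, from FTF, NLB, NLM, CVM, WK1, SY1, FI3). The mean field. Proof:
`‖Vh ξ‖ ≤ (10/ν) |ξ| (|Â| * |Â|)(ξ)`, so `wk k * ‖Vh‖ ≤ C wk (k+1) (|Â| * |Â|)` and WK1; symmetries by
SY1 and FTF; the physical statements by FI3. -/
def S_VVP : Prop := ∀ (ν : ℝ) (A : E3 → E3), 0 < ν → Adm A →
  Measurable (Vh ν A) ∧
  (∀ k : ℕ, ∃ M : NNReal, (∫⁻ ξ, wk k ξ * ‖Vh ν A ξ‖ₑ) ≤ M ∧ ∀ ξ, wk k ξ * ‖Vh ν A ξ‖ₑ ≤ M) ∧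
  Sym (Vh ν A) ∧ ContDiff ℝ ∞ (VV ν A) ∧ Axi (VV ν A) ∧
  (∀ x, ∑ j, pd j (fun y => VV ν A y j) x = 0) ∧
  ∀ x k, ((VV ν A x k : ℝ) : ℂ) = 𝓕⁻ (fun ξ => Vh ν A ξ k) x

/-- GQ1 (120 lines, from FTF, BIL, NLS, NLL, VVP, WDV, RES, OC2, OC6, CVM). The equation of the
approximate solution. Proof: write `e = exp(-2τ)`, `ŵ = fth w`, `κ = 4π²ν`. `∂_t gg = -2νN² e Vh + fth(∂_t w)`
(OC6). `fth(∂_t w)` is orthogonal to `ξ` (the divergence of `∂_t w` is zero; or differentiate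
`dt ξ (fth w) = 0`), so it equals its `lp`. By the definition of `Rw`,
`∂_t w = Rw + νΔw - e (V·∇w + w·∇V) - w·∇w + (N²/2) e div(A ⊗ A)`. Since `V`, `w` are divergence free,
`V·∇w_k = Σ_j ∂_j(V_j w_k)` and so on; by BIL (with `a = Vh`, `a = fth w`, `a = fth A`, `phy (fth f) = f`)
the `lp` of the transforms of these terms are `e (nl Vh ŵ + nl ŵ Vh)`, `nl ŵ ŵ`,
`-(N²/2) e nl Â Â = 2νN² e Vh`; `lp ξ (𝓕 νΔw) = -κ|ξ|² ŵ`. Finally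
`nl gg gg = e² nl Vh Vh + e nl Vh ŵ + e nl ŵ Vh + nl ŵ ŵ` (NLL, NLS). -/
def S_GQ1 : Prop := ∀ (ν : ℝ) (A : E3 → E3), 0 < ν → Adm A → ∀ (n : ℕ) (t : ℝ) (ξ : E3),
  HasDerivAt (fun s => gg ν A n s ξ)
    (-(4 * Real.pi ^ 2 * ν * ‖ξ‖ ^ 2) • gg ν A n t ξ + nl (gg ν A n t) (gg ν A n t) ξ
      + Rr ν A n t ξ) t

/-- GB1 (90 lines, from OC2, OC4, RES, VVP, FTF, WDV, WAX, NLB, NLM, CVM, WK1, SY1, GQ1). Tameness and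
symmetry. Proof: OC4 for the components of `wf` and `Rwf`, `‖lp ξ w‖ ≤ 3 ‖w‖`, VVP, NLB and WK1 for
`nl Vh Vh`. `Sym (gg t)`: VVP and FTF, WDV, WAX. `Sym (Rr t)`: by GQ1 `Rr` is
`∂_t gg + κ|ξ|² gg - nl gg gg`, and the time derivative of a family of symmetric functions is
symmetric; SY1. -/
def S_GB1 : Prop := ∀ (ν : ℝ) (A : E3 → E3), 0 < ν → Adm A → ∀ n,
  TameV (gg ν A n) ∧ TameV (Rr ν A n) ∧ (∀ t, Sym (gg ν A n t)) ∧ (∀ t, Sym (Rr ν A n t))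

/-- GB2 (90 lines, from OC4, RES, VVP, NLB, CVM, WK1). Uniform bounds. Proof: OC4 with `k = 0`
and order 1: `∫ |ŵ| ≤ C N e^{-τ/2}`, `H t = a e^{-2τ} + C N e^{-τ/2}` for `t ≥ 0` (extend by `|t|`),
`∫_0^∞ H² ≤ 2a²/(4ν) + 2C²/ν`. For `b` with `∫ |b| + sup |b| ≤ D`: `∫ |ξ|⁻¹ |b| ≤ D (1 + ∫_{|ξ|<1} |ξ|⁻¹) `.
So `∫∫ |ξ|⁻¹ |lp R̂w| ≤ C N ∫ e^{-τ/2} dt = 2C/(νN)`, `∫∫ |ξ|⁻¹ κ|ξ|² e^{-2τ} |Vh| ≤ C/(2νN²)`,
`∫∫ |ξ|⁻¹ e^{-4τ} |nl Vh Vh| ≤ 40 (∫|Vh|)²/(4νN²)`. -/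
def S_GB2 : Prop := ∀ (ν : ℝ) (A : E3 → E3), 0 < ν → Adm A → ∃ C : ℝ, 0 ≤ C ∧ ∀ n,
  (∃ H : ℝ → ℝ, Continuous H ∧ (∀ t, 0 ≤ H t) ∧
    (∀ T, 0 ≤ T → (∫ s in (0 : ℝ)..T, H s ^ 2) ≤ C) ∧
    ∀ t, 0 ≤ t → (∫⁻ ξ, nm (gg ν A n) t ξ) ≤ ENNReal.ofReal (H t)) ∧
  (∫⁻ s in Ioi 0, ∫⁻ ξ, iw ξ * nm (Rr ν A n) s ξ) ≤ ENNReal.ofReal (C / NN n) ∧
  ∀ t, 0 ≤ t → (∫⁻ ξ, iw ξ * nm (gg ν A n) t ξ)
    ≤ ENNReal.ofReal (C * NN n * Real.exp (-(ta ν n t / 2)))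

/-- GEQ (60 lines, from GQ1, GB1, NLM, NLB, CVM). The integral equation. Proof: the derivative of
`s ↦ exp(κ|ξ|² s) • gg s ξ` is `exp(κ|ξ|² s) • (nl gg gg + Rr)` by GQ1; it is bounded and measurable
on `(0, t)` (GB1, NLB, NLM), so `intervalIntegral.integral_eq_sub_of_hasDerivAt` applies. -/
def S_GEQ : Prop := ∀ (ν : ℝ) (A : E3 → E3), 0 < ν → Adm A → ∀ (n : ℕ) (t : ℝ), 0 ≤ t → ∀ ξ,
  gg ν A n t ξ = ht (4 * Real.pi ^ 2 * ν) ξ t • gg ν A n 0 ξ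
    + ∫ s in Ioc 0 t, ht (4 * Real.pi ^ 2 * ν) ξ (t - s) •
      (nl (gg ν A n s) (gg ν A n s) ξ + Rr ν A n s ξ)

/-- INV (30 lines, from FTF, VVP, WDV). Initial values. Proof: `𝓕⁻` is additive on integrable
functions. -/
def S_INV : Prop := ∀ (ν : ℝ) (A : E3 → E3), 0 < ν → Adm A → ∀ n,
  phy (gg ν A n 0) = fun x => VV ν A x + wf ν A (VV ν A) n 0 x

/-- OSC (70 lines, from OC5). The wave is weakly small. Proof: at `t = 0` (`τ = 0`) each component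
of the wave is a finite sum of `N^q ρ(x) trig(mNz)`, `m = 1, 2`, `ρ ∈ Cc`, `q ∈ {1, 0, -1}`; multiply
with the test function and use OC5. -/
def S_OSC : Prop := ∀ (ν : ℝ) (A V φ : E3 → E3), 0 < ν → Adm A → ContDiff ℝ ∞ V → Test φ →
  Tendsto (fun n => pair (wf ν A V n 0) φ) atTop (𝓝 0)

/-- NSA (50 lines, from PTB, GB1, GB2, GEQ). Solutions near the approximate solution. Proof: PTB with
`K = C`, `η = C/N`; for large `n` all smallness conditions hold, and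
`C N exp(-νN²δ/2) → 0`, `iw (a) ≤ iw (a - g) + iw g`. -/
def S_NSA : Prop := ∀ (ν : ℝ) (A : E3 → E3) (δ : ℝ), 0 < ν → Adm A → 0 < δ → ∃ n₀ : ℕ, ∀ n, n₀ ≤ n →
  ∃ u : ℝ → E3 → C3, TameV u ∧ Mild (4 * Real.pi ^ 2 * ν) u ∧ (∀ t, 0 ≤ t → Sym (u t)) ∧
    (∀ ξ, u 0 ξ = gg ν A n 0 ξ) ∧
    ∀ t, δ ≤ t → (∫⁻ ξ, iw ξ * ‖u t ξ‖ₑ) ≤ ENNReal.ofReal δ

end Pool.Agent.Run7.h148.AX
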