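import Pool.Agent.Run7.h148.AX.Stm2

/-!
Project AX, PART III: the weak closure of the mean fields `(1/(4ν)) P div (A ⊗ A)` contains every
axisymmetric divergence free field. Elementary pieces.
-/

set_option autoImplicit false

open MeasureTheory Set Filter Topology
open scoped ENNReal ContDiff FourierTransform

namespace Pool.Agent.Run7.h148.AX

/-- the horizontal linear field `α (x0, x1, 0) + β (-x1, x0, 0)` -/
noncomputable def PP (α β : ℝ) (x : E3) : E3 := !₂[α * x 0 - β * x 1, α * x 1 + β * x 0, 0]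

/-- `Σ P_j P_k ∂_j Φ_k`, `P = PP α β` -/
noncomputable def QQ (α β : ℝ) (Φ : E3 → E3) (x : E3) : ℝ :=
  ∑ j, ∑ k, PP α β x j * PP α β x k * pd j (fun y => Φ y k) x

/-- IWI (20 lines). `1/|ξ|` is locally integrable in dimension three. Proof: polar coordinates
(`integral_fun_norm_addHaar` or `integrable_fun_norm_addHaar`), or compare with
`∑ₙ 2^(n+1) vol (ball 2^(-n))`. -/
def S_IWI : Prop := (∫⁻ ξ in Metric.ball (0 : E3) 1, iw ξ) < ⊤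

/-- LPP (80 lines, from FTF, FI3, SY1). Properties of `LP φ`. Proof: `a ξ = lp ξ (fth φ ξ)` is
measurable, `‖a ξ‖ ≤ 3 ‖fth φ ξ‖`, `Herm`, `Dvf`, and `Rot` if `φ` is axisymmetric
(`lp (rt θ ξ) (rc θ w) = rc θ (lp ξ w)`; reprove it, 10 lines). FI3. Decay: Riemann-Lebesgue
(`Real.tendsto_fourier_cocompact` or similar name). -/
def S_LPP : Prop := ∀ φ : E3 → E3, Test φ →
  ContDiff ℝ ∞ (LP φ) ∧ (∀ x, ∑ j, pd j (fun y => LP φ y j) x = 0) ∧ (Axi φ → Axi (LP φ)) ∧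
  Tendsto (LP φ) (cocompact E3) (𝓝 0)

/-- PAR (100 lines, from FTF, FI1, FI3, CNV, NLB, NLM, CVM, WK1, VVP). The pairing with the mean field.
Proof: `∫ V · φ = ∫ Σ_k Vh_k(ξ) φ̂_k(-ξ) dξ` (Fubini, `V_k = 𝓕⁻ Vh_k`). Insert
`Vh = (1/(4ν)) 2πi lp ξ (Σ_j ξ_j (A_jA_k)^(ξ))_k` (CNV with `A_j = 𝓕⁻ Â_j`), move `lp ξ` (symmetric,
`lp (-ξ) = lp ξ`) to `φ̂(-ξ)`: `lp ξ φ̂(-ξ) = Φ̂(-ξ)`, `Φ̂ = lp φ̂`, `Φ = LP φ = 𝓕⁻ Φ̂`. And
`𝓕⁻ (2πi ξ_j Φ̂_k) = ∂_jΦ_k` (FI1), so `∫ (A_jA_k)^(ξ) 2πi ξ_j Φ̂_k(-ξ) dξ = - ∫ A_jA_k ∂_jΦ_k` (Fubini). -/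
def S_PAR : Prop := ∀ (ν : ℝ) (A φ : E3 → E3), 0 < ν → Adm A → Test φ →
  pair (VV ν A) φ = -(1 / (4 * ν)) * qf A (LP φ)

/-- GRD (80 lines, from FTF, FI1, FI3, IWI). A test field with `LP φ = 0` is a gradient. Proof:
`q = 𝓕⁻ b`, `b ξ = (ξ · φ̂(ξ)) / (2πi |ξ|²)` (`|b| ≤ |ξ|⁻¹ |φ̂|`, all moments in `L¹` by IWI); `b` is
hermitian, so `q` is real; `∂_j q = 𝓕⁻ (ξ_j (ξ·φ̂)/|ξ|²) = 𝓕⁻ (φ̂_j - lp ξ φ̂ j) = φ_j - (LP φ)_j = φ_j`.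
Smooth by FI1. Support: if `φ = 0` outside the ball of radius `R` and `|x| > R` then `s ↦ q(s x)` is
constant on `[1, ∞)` and tends to `0` (Riemann-Lebesgue). -/
def S_GRD : Prop := ∀ φ : E3 → E3, Test φ → LP φ = 0 → ∃ q : E3 → ℝ, Cc q ∧ ∀ x j, φ x j = pd j q x

/-- INF (30 lines). Infinitesimal rotation. Proof: differentiate `Φ (rt θ x) = rt θ (Φ x)` at
`θ = 0`. -/
def S_INF : Prop := ∀ Φ : E3 → E3, ContDiff ℝ ∞ Φ → Axi Φ → ∀ x,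
  (-x 1 * pd 0 (fun y => Φ y 0) x + x 0 * pd 1 (fun y => Φ y 0) x = -Φ x 1) ∧
  (-x 1 * pd 0 (fun y => Φ y 1) x + x 0 * pd 1 (fun y => Φ y 1) x = Φ x 0) ∧
  (-x 1 * pd 0 (fun y => Φ y 2) x + x 0 * pd 1 (fun y => Φ y 2) x = 0)

/-- RA1 (110 lines). From the quadratic forms to the pointwise inequality. Proof: `Q = QQ α β Φ` is
continuous and `Q (rt θ x) = Q x` (differentiate `Φ (rt θ x) = rt θ (Φ x)`; `PP α β` commutes with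
`rt θ`). If `Q x₀ < 0` then `Q < 0` on `{x : |x0² + x1² - r₀²| < δ, |x2 - z₀| < δ}` for small `δ`
(each `x` there is a rotation of `(√(x0²+x1²), 0, x2)`, near a rotation of `x₀`). Let
`a x = χ((x0²+x1²-r₀²)/δ) χ((x2-z₀)/δ)`, `χ ≥ 0` a smooth bump supported in `(-1, 1)`, `χ 0 = 1`. Then
`A = a PP α β` is admissible and `qf A Φ = ∫ a² Q < 0`, a contradiction. -/
def S_RA1 : Prop := ∀ Φ : E3 → E3, ContDiff ℝ ∞ Φ → Axi Φ → (∀ A, Adm A → 0 ≤ qf A Φ) →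
  ∀ (α β : ℝ) (x : E3), 0 ≤ QQ α β Φ x

/-- RA2 (110 lines, from INF). The ray argument. Proof: let `γ s = (s x0, s x1, x2)`, `(x0, x1) ≠ 0`,
`G s = x0 Φ0(γ s) + x1 Φ1(γ s)`. For `s > 0` `G' s = QQ 1 0 Φ (γ s) / s² ≥ 0`, `G 0 = 0` (by
axisymmetry with `θ = π` the horizontal part vanishes on the axis), `G s → 0` for `s → ∞`: so
`G = 0`, that is `x0 Φ0 + x1 Φ1 = 0` everywhere and `QQ 1 0 Φ = 0`. By INF `QQ 0 1 Φ = x0 Φ0 + x1 Φ1 = 0`,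
and `QQ α β = α² Q11 + αβ (Q12 + Q21) + β² Q22` with `Q21 = Σ p2_j p1_k ∂_jΦ_k = -g`,
`g = -x1 Φ0 + x0 Φ1`. `QQ 1 (±1) ≥ 0` gives `Q12 + Q21 = 0`, `Q12 = Σ p1_j p2_k ∂_jΦ_k = g`. Along the ray
`G₂ s = -x1 Φ0(γ s) + x0 Φ1(γ s)` has `G₂' s = Q12(γ s)/s² = G₂ s / s`, so `G₂ s / s` is constant on
`(0, ∞)`, and `G₂ → 0`, so `G₂ = 0`. Hence `Φ0 = Φ1 = 0`; `div Φ = 0` gives `∂_2Φ2 = 0`, so `Φ2 = 0` by
the decay. -/
def S_RA2 : Prop := ∀ Φ : E3 → E3, ContDiff ℝ ∞ Φ → Axi Φ →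
  (∀ x, ∑ j, pd j (fun y => Φ y j) x = 0) → Tendsto Φ (cocompact E3) (𝓝 0) →
  (∀ (α β : ℝ) (x : E3), 0 ≤ QQ α β Φ x) → Φ = 0

/-- CON (50 lines). Separation in finite dimension. Proof: `closure S` is a closed convex cone; if
`y ∉ closure S`, separate strictly (`geometric_hahn_banach_closed_point`): `f s < r < f y` on
`closure S`; `0 ∈ closure S` gives `r > 0`, scaling gives `f s ≤ 0` on `S`; `f` is
`x ↦ Σ c_i x_i`; contradiction. -/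
def S_CON : Prop := ∀ (m : ℕ) (S : Set (Fin m → ℝ)) (y : Fin m → ℝ), S.Nonempty →
  (∀ s ∈ S, ∀ c : ℝ, 0 ≤ c → c • s ∈ S) → (∀ s ∈ S, ∀ s' ∈ S, s + s' ∈ closure S) →
  (∀ c : Fin m → ℝ, (∀ s ∈ S, (∑ i, c i * s i) ≤ 0) → (∑ i, c i * y i) ≤ 0) → y ∈ closure S

/-- MIX (80 lines, from OC5). The closure of the quadratic forms is convex. Proof:
`C n x = √2 (cos(N z) A x + sin(N z) B x)`, `N = NN n`; `C_jC_k = A_jA_k + B_jB_k +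
cos(2Nz) (A_jA_k - B_jB_k) + sin(2Nz) (A_jB_k + B_jA_k)`, OC5 with `q = 0`, `k = 2`. `cos(Nz)` is
invariant under `rt θ`. -/
def S_MIX : Prop := ∀ A B : E3 → E3, Adm A → Adm B → ∃ C : ℕ → E3 → E3, (∀ n, Adm (C n)) ∧
  ∀ Φ : E3 → E3, ContDiff ℝ ∞ Φ → Tendsto (fun n => qf (C n) Φ) atTop (𝓝 (qf A Φ + qf B Φ))

/-- AVG (110 lines). Averaging a test field. Proof: `φ' x = (2π)⁻¹ ∫_0^{2π} rt (-θ) (φ (rt θ x)) dθ`; it is
smooth (parameter integral over a compact interval of a jointly smooth function; iterate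
`hasFDerivAt_integral_of_dominated_of_fderiv_le` or `contDiff` lemmas of Mathlib), compactly
supported (`‖rt θ x‖ = ‖x‖`), axisymmetric by periodicity in `θ`. For axisymmetric `u`:
`∫ u(x) · rt(-θ) φ(rt θ x) dx = ∫ u(rt θ x) · φ(rt θ x) dx = ∫ u · φ`; Fubini. -/
def S_AVG : Prop := ∀ φ : E3 → E3, Test φ → ∃ φ' : E3 → E3, Test φ' ∧ Axi φ' ∧
  ∀ u : E3 → E3, LocallyIntegrable u → Axi u → pair u φ = pair u φ'

/-- TGT (90 lines, from CON, MIX, AVG, LPP, PAR, GRD, RA1, RA2, VVP). The target. Proof: CON with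
`S = {s | ∃ A, Adm A ∧ s i = pair (VV ν A) (φ i)}`, `y i = pair u0 (φ i)`. Scaling: `√c A` (PAR, `qf` is
quadratic). Sums: PAR and MIX with `Φ = LP (φ i)`. Separation: let `c` with `Σ c_i s_i ≤ 0` on `S`,
`φ = Σ c_i φ_i`, `φ'` its average (AVG): `pair (VV ν A) φ' = Σ c_i s_i ≤ 0` (`VV ν A` is continuous and
axisymmetric by VVP), so `qf A (LP φ') ≥ 0` for all admissible `A` (PAR), RA1 and RA2 (with LPP) give
`LP φ' = 0`, GRD gives `φ' = ∇q`, `pair u0 φ' = 0` since `u0` is weakly divergence free, so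
`Σ c_i y_i = pair u0 φ = 0`. -/
def S_TGT : Prop := ∀ (ν : ℝ) (u0 : E3 → E3) (m : ℕ) (φ : Fin m → E3 → E3) (ε : ℝ), 0 < ν →
  LocallyIntegrable u0 → Axi u0 → WDf u0 → (∀ i, Test (φ i)) → 0 < ε →
  ∃ A : E3 → E3, Adm A ∧ ∀ i, |pair (VV ν A) (φ i) - pair u0 (φ i)| ≤ ε

/-- FIN (60 lines, from TGT, INV, OSC, NSA, PHY, FTF, VVP, WDV). The theorem. Proof: `A` from TGT with
`ε/2`, `n` large (OSC, NSA with `δ = ε`), `u t = phy (U t)`, `PHY`; `u 0 = VV + wf 0` by INV. -/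
def S_FIN : Prop := ∀ (ν : ℝ) (u0 : E3 → E3) (m : ℕ) (φ : Fin m → E3 → E3) (ε : ℝ), 0 < ν →
  LocallyIntegrable u0 → Axi u0 → WDf u0 → (∀ i, Test (φ i)) → 0 < ε →
  ∃ (U : ℝ → E3 → C3) (u : ℝ → E3 → E3) (p : ℝ → E3 → ℝ), IsSol ν u p ∧
    (∀ i, |pair (u 0) (φ i) - pair u0 (φ i)| ≤ ε) ∧
    TameV U ∧ (∀ t, 0 ≤ t → Herm (U t) ∧ u t = phy (U t)) ∧
    ∀ t, ε ≤ t → (∫⁻ ξ, iw ξ * ‖U t ξ‖ₑ) ≤ ENNReal.ofReal ε

end Pool.Agent.Run7.h148.AX
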