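import Pool.Agent.Run7.h148.AX.Stm3

/-!
Project AX, PART IV: a whole ball of data (in the critical Lei-Lin norm) around the constructed datum
has global smooth solutions.
-/

set_option autoImplicit false

open MeasureTheory Set Filter Topology
open scoped ENNReal ContDiff FourierTransform

namespace Pool.Agent.Run7.h148.AX

/-- measurable, with all weights -/
def Nice (w : E3 → C3) : Prop := Measurable w ∧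
  ∀ k : ℕ, ∃ M : NNReal, (∫⁻ ξ, wk k ξ * ‖w ξ‖ₑ) ≤ M ∧ ∀ ξ, wk k ξ * ‖w ξ‖ₑ ≤ M

/-- heat evolution of `w` for `t ≥ 0` -/
noncomputable def hev (κ : ℝ) (w : E3 → C3) (t : ℝ) (ξ : E3) : C3 := ht κ ξ (max t 0) • w ξ

/-- JCN (90 lines, from CSX). Bounds for the heat evolution. Proof: `0 ≤ ht κ ξ (max t 0) ≤ 1`, so
`TameV`. `J t = (∫⁻ ‖hev κ w t ξ‖ₑ).toReal = ∫ ht κ ξ (max t 0) ‖w ξ‖`, continuous by dominated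
convergence. By CSX `J t ^ 2 ≤ (∫⁻ iw hev) (∫⁻ nw hev) ≤ δ ∫⁻ nw ht ‖w‖`, and
`∫⁻_{t ∈ Ioc 0 T} ht κ ξ t ≤ 1/(κ |ξ|²)` for `ξ ≠ 0`, so `∫_0^T J² ≤ δ ∫⁻ iw ‖w‖ / κ ≤ δ²/κ`
(Tonelli). -/
def S_JCN : Prop := ∀ (κ δ : ℝ) (w : E3 → C3), 0 < κ → 0 ≤ δ → Nice w →
  (∫⁻ ξ, iw ξ * ‖w ξ‖ₑ) ≤ ENNReal.ofReal δ →
  TameV (hev κ w) ∧ (∀ t, (∫⁻ ξ, iw ξ * nm (hev κ w) t ξ) ≤ ENNReal.ofReal δ) ∧
  ∃ J : ℝ → ℝ, Continuous J ∧ (∀ t, 0 ≤ J t) ∧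
    (∀ t, (∫⁻ ξ, nm (hev κ w) t ξ) ≤ ENNReal.ofReal (J t)) ∧
    ∀ T, 0 ≤ T → (∫ s in (0 : ℝ)..T, J s ^ 2) ≤ δ ^ 2 / κ

/-- TMN (60 lines, from NLB, NLM, CVM, WK1). `nl` of tame curves is tame. Proof: NLB and
`wk k ξ * nw ξ ≤ wk (k+1) ξ`, WK1 (1), (2) for `k + 1`. (See also the proof of FI4.) -/
def S_TMN : Prop := ∀ a b : ℝ → E3 → C3, TameV a → TameV b → TameV fun t ξ => nl (a t) (b t) ξ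

/-- OPN (110 lines, from PTB, JCN, TMN, NLB, NLL, CVM, SY1). Perturbation of the initial value. Proof:
`h = hev κ w`, `g' = g + h`, `R' = R - nl g h - nl h g - nl h h`. For `t ≥ 0`
`nl g' g' + R' = nl g g + R` (NLL; the convolutions are finite by the sup and `L¹` bounds), so
`g' t = ht (g 0 + w) + ∫ ht (nl g' g' + R')`, because `h t = ht • w` for `t ≥ 0`. PTB for `g'`, `R'`,
`H' = H + J` (JCN), `K' = 2K + 2δ²/κ` (`(a+b)² ≤ 2a² + 2b²`), and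
`∫∫ iw |R'| ≤ η + 40 ∫ (2HJ + J²) ≤ η + 80 δ √(K/κ) + 40 δ²/κ = η'` (`iw nw ≤ 1`, `∫⁻ cv` is the product,
Cauchy-Schwarz in time). Tame: sums and TMN. Sym: SY1 and `Sym h` (`ht` depends on `‖ξ‖`).
Finally `‖u - g‖ ≤ ‖u - g'‖ + ‖h‖`. -/
def S_OPN : Prop := ∀ (κ K η δ : ℝ) (H : ℝ → ℝ) (R g : ℝ → E3 → C3) (w : E3 → C3),
  0 < κ → 0 ≤ K → 0 ≤ η → 0 ≤ δ → Continuous H → (∀ t, 0 ≤ H t) →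
  (∀ T, 0 ≤ T → (∫ s in (0 : ℝ)..T, H s ^ 2) ≤ K) → TameV R → TameV g →
  (∀ t, Sym (R t)) → (∀ t, Sym (g t)) → Nice w → Sym w →
  (∫⁻ ξ, iw ξ * ‖w ξ‖ₑ) ≤ ENNReal.ofReal δ →
  (∀ t, 0 ≤ t → (∫⁻ ξ, nm g t ξ) ≤ ENNReal.ofReal (H t)) →
  (∫⁻ s in Ioi 0, ∫⁻ ξ, iw ξ * nm R s ξ) ≤ ENNReal.ofReal η →
  25600 * (η + 80 * δ * √(K / κ) + 40 * δ ^ 2 / κ) *
    Real.exp (25600 / κ * (2 * K + 2 * δ ^ 2 / κ)) ≤ κ →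
  (∀ t, 0 ≤ t → ∀ ξ, g t ξ = ht κ ξ t • g 0 ξ
    + ∫ s in Ioc 0 t, ht κ ξ (t - s) • (nl (g s) (g s) ξ + R s ξ)) →
  ∃ u : ℝ → E3 → C3, TameV u ∧ Mild κ u ∧ (∀ t, 0 ≤ t → Sym (u t)) ∧ (∀ ξ, u 0 ξ = g 0 ξ + w ξ) ∧
    ∀ t, 0 ≤ t → (∫⁻ ξ, iw ξ * ‖u t ξ - g t ξ‖ₑ)
      ≤ ENNReal.ofReal (δ + 4 * (η + 80 * δ * √(K / κ) + 40 * δ ^ 2 / κ) *
        Real.exp (25600 / κ * (2 * K + 2 * δ ^ 2 / κ)))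

/-- NSB (60 lines, from OPN, GB1, GB2, GEQ). Proof: OPN with `K = C`, `η = C/N` (constants of GB2);
choose first `δ ≤ 1` small, then `n₀` large: the smallness condition and the final bound hold, and
`C N exp(-νN²ε/2) → 0`, `iw u ≤ iw (u - g) + iw g`. -/
def S_NSB : Prop := ∀ (ν : ℝ) (A : E3 → E3) (ε : ℝ), 0 < ν → Adm A → 0 < ε →
  ∃ (δ : ℝ) (n₀ : ℕ), 0 < δ ∧ ∀ n, n₀ ≤ n → ∀ w : E3 → C3, Nice w → Sym w →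
    (∫⁻ ξ, iw ξ * ‖w ξ‖ₑ) ≤ ENNReal.ofReal δ →
    ∃ u : ℝ → E3 → C3, TameV u ∧ Mild (4 * Real.pi ^ 2 * ν) u ∧ (∀ t, 0 ≤ t → Sym (u t)) ∧
      (∀ ξ, u 0 ξ = gg ν A n 0 ξ + w ξ) ∧
      ∀ t, ε ≤ t → (∫⁻ ξ, iw ξ * ‖u t ξ‖ₑ) ≤ ENNReal.ofReal ε

/-- The theorem in its strongest form (assembled by helper148). -/
def S_FIB : Prop := ∀ (ν : ℝ) (u0 : E3 → E3) (m : ℕ) (φ : Fin m → E3 → E3) (ε : ℝ), 0 < ν →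
  LocallyIntegrable u0 → Axi u0 → WDf u0 → (∀ i, Test (φ i)) → 0 < ε →
  ∃ (v0 : E3 → C3) (δ : ℝ), 0 < δ ∧ Nice v0 ∧ Sym v0 ∧
    (∀ i, |pair (phy v0) (φ i) - pair u0 (φ i)| ≤ ε) ∧
    ∀ w : E3 → C3, Nice w → Sym w → (∫⁻ ξ, iw ξ * ‖w ξ - v0 ξ‖ₑ) ≤ ENNReal.ofReal δ →
      ∃ (U : ℝ → E3 → C3) (p : ℝ → E3 → ℝ), IsSol ν (fun t => phy (U t)) p ∧ U 0 = w ∧
        TameV U ∧ (∀ t, 0 ≤ t → Sym (U t)) ∧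
        ∀ t, ε ≤ t → (∫⁻ ξ, iw ξ * ‖U t ξ‖ₑ) ≤ ENNReal.ofReal ε

end Pool.Agent.Run7.h148.AX
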