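import Pool.Agent.Run7.h148.AX.Stm4

/-!
Project AX, PART V: the solutions follow any given global axisymmetric flow `U`.
-/

set_option autoImplicit false

open MeasureTheory Set Filter Topology
open scoped ENNReal ContDiff FourierTransform

namespace Pool.Agent.Run7.h148.AX

/-- Fourier transform of a global smooth axisymmetric solution, with `∫ |U t| ≤ H t`, `H` bounded and
square integrable in time -/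
def Flow (κ : ℝ) (U : ℝ → E3 → C3) : Prop :=
  TameV U ∧ Mild κ U ∧ (∀ t, 0 ≤ t → Sym (U t)) ∧ ∃ (H : ℝ → ℝ) (B : ℝ), Continuous H ∧
    (∀ t, 0 ≤ H t ∧ H t ≤ B) ∧ (∀ T, 0 ≤ T → (∫ s in (0 : ℝ)..T, H s ^ 2) ≤ B) ∧
    ∀ t, 0 ≤ t → (∫⁻ ξ, nm U t ξ) ≤ ENNReal.ofReal (H t)

/-- ADD (100 lines, from TMN, NLB, NLL, NLM, CVM, SY1). An approximate solution which is small in
`L¹_t L¹_ξ` can be added to an exact one. Proof: `U' t = U (max t 0)`. For `t ≥ 0`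
`nl g1 g1 + R1 = (nl g g + R) + nl U U` (NLL), so the two integral equations add up (integrands
bounded and measurable on `(0, t]`). TMN for tameness, SY1 and linearity for the symmetries;
`∫∫ iw |nl g U| ≤ 40 ∫ (∫|g|)(∫|U|) ≤ 40 B γ` (NLB, `iw nw ≤ 1`, CVM). `(a+b)² ≤ 2a² + 2b²`. -/
def S_ADD : Prop := ∀ (κ K η γ B : ℝ) (H HU : ℝ → ℝ) (R g U : ℝ → E3 → C3),
  0 < κ → 0 ≤ K → 0 ≤ η → 0 ≤ γ → 0 ≤ B → Continuous H → (∀ t, 0 ≤ H t) →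
  (∀ T, 0 ≤ T → (∫ s in (0 : ℝ)..T, H s ^ 2) ≤ K) → TameV R → TameV g →
  (∀ t, Sym (R t)) → (∀ t, Sym (g t)) →
  (∀ t, 0 ≤ t → (∫⁻ ξ, nm g t ξ) ≤ ENNReal.ofReal (H t)) →
  (∫⁻ s in Ioi 0, ∫⁻ ξ, iw ξ * nm R s ξ) ≤ ENNReal.ofReal η →
  (∫⁻ s in Ioi 0, ∫⁻ ξ, nm g s ξ) ≤ ENNReal.ofReal γ →
  (∀ t, 0 ≤ t → ∀ ξ, g t ξ = ht κ ξ t • g 0 ξ
    + ∫ s in Ioc 0 t, ht κ ξ (t - s) • (nl (g s) (g s) ξ + R s ξ)) →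
  TameV U → Mild κ U → (∀ t, 0 ≤ t → Sym (U t)) → Continuous HU → (∀ t, 0 ≤ HU t ∧ HU t ≤ B) →
  (∀ T, 0 ≤ T → (∫ s in (0 : ℝ)..T, HU s ^ 2) ≤ B) →
  (∀ t, 0 ≤ t → (∫⁻ ξ, nm U t ξ) ≤ ENNReal.ofReal (HU t)) →
  ∃ R1 g1 : ℝ → E3 → C3, (∀ t ξ, g1 t ξ = g t ξ + U (max t 0) ξ) ∧ TameV R1 ∧ TameV g1 ∧
    (∀ t, Sym (R1 t)) ∧ (∀ t, Sym (g1 t)) ∧
    (∀ t, 0 ≤ t → (∫⁻ ξ, nm g1 t ξ) ≤ ENNReal.ofReal (H t + HU t)) ∧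
    (∀ T, 0 ≤ T → (∫ s in (0 : ℝ)..T, (H s + HU s) ^ 2) ≤ 2 * K + 2 * B) ∧
    (∫⁻ s in Ioi 0, ∫⁻ ξ, iw ξ * nm R1 s ξ) ≤ ENNReal.ofReal (η + 80 * B * γ) ∧
    ∀ t, 0 ≤ t → ∀ ξ, g1 t ξ = ht κ ξ t • g1 0 ξ
      + ∫ s in Ioc 0 t, ht κ ξ (t - s) • (nl (g1 s) (g1 s) ξ + R1 s ξ)

/-- GB3 (40 lines, from OC4, RES, VVP). The approximate solution is small in `L¹_t L¹_ξ`. Proof:
`∫ |gg| ≤ a e^{-2τ} + C N e^{-τ/2}` (see GB2), `∫_0^∞ e^{-τ/2} dt = 2/(νN²)`. -/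
def S_GB3 : Prop := ∀ (ν : ℝ) (A : E3 → E3), 0 < ν → Adm A → ∃ C : ℝ, 0 ≤ C ∧ ∀ n,
  (∫⁻ s in Ioi 0, ∫⁻ ξ, nm (gg ν A n) s ξ) ≤ ENNReal.ofReal (C / NN n)

/-- NSC (80 lines, from OPN, ADD, GB1, GB2, GB3, GEQ). Solutions near `gg + U`. Proof: ADD with
`K = C`, `η = C/N`, `γ = C'/N`; then OPN for `g1`, `R1`, `H + HU`, `K1 = 2C + 2B`,
`η1 = η + 80 B γ = O(1/N)`; choose first `δ ≤ 1` small, then `n₀` large. `u - U = (u - g1) + gg`,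
`C N exp(-νN²ε/2) → 0`. -/
def S_NSC : Prop := ∀ (ν : ℝ) (A : E3 → E3) (ε : ℝ) (U : ℝ → E3 → C3), 0 < ν → Adm A → 0 < ε →
  Flow (4 * Real.pi ^ 2 * ν) U →
  ∃ (δ : ℝ) (n₀ : ℕ), 0 < δ ∧ ∀ n, n₀ ≤ n → ∀ w : E3 → C3, Nice w → Sym w →
    (∫⁻ ξ, iw ξ * ‖w ξ‖ₑ) ≤ ENNReal.ofReal δ →
    ∃ u : ℝ → E3 → C3, TameV u ∧ Mild (4 * Real.pi ^ 2 * ν) u ∧ (∀ t, 0 ≤ t → Sym (u t)) ∧
      (∀ ξ, u 0 ξ = gg ν A n 0 ξ + U 0 ξ + w ξ) ∧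
      ∀ t, ε ≤ t → (∫⁻ ξ, iw ξ * ‖u t ξ - U t ξ‖ₑ) ≤ ENNReal.ofReal ε

/-- WDP (30 lines). Smooth divergence free fields are weakly divergence free. Proof:
`Σ V_j ∂_j q = Σ ∂_j (V_j q)` and the integral of a derivative of a `Cc` function vanishes
(`integral_mul_fderiv_eq_neg_fderiv_mul_of_integrable` or `integral_bilinear..`). -/
def S_WDP : Prop := ∀ V : E3 → E3, ContDiff ℝ ∞ V → (∀ x, ∑ j, pd j (fun y => V y j) x = 0) → WDf V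

/-- The final theorem (assembled by helper148). -/
def S_FIC : Prop := ∀ (ν : ℝ) (u0 : E3 → E3) (V : ℝ → E3 → C3) (m : ℕ) (φ : Fin m → E3 → E3) (ε : ℝ),
  0 < ν → LocallyIntegrable u0 → Axi u0 → WDf u0 → Flow (4 * Real.pi ^ 2 * ν) V →
  (∀ i, Test (φ i)) → 0 < ε →
  ∃ (v0 : E3 → C3) (δ : ℝ), 0 < δ ∧ Nice v0 ∧ Sym v0 ∧
    (∀ i, |pair (phy v0) (φ i) - pair u0 (φ i)| ≤ ε) ∧
    ∀ w : E3 → C3, Nice w → Sym w → (∫⁻ ξ, iw ξ * ‖w ξ - v0 ξ‖ₑ) ≤ ENNReal.ofReal δ →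
      ∃ (U : ℝ → E3 → C3) (p : ℝ → E3 → ℝ), IsSol ν (fun t => phy (U t)) p ∧ U 0 = w ∧
        TameV U ∧ (∀ t, 0 ≤ t → Sym (U t)) ∧
        ∀ t, ε ≤ t → (∫⁻ ξ, iw ξ * ‖U t ξ - V t ξ‖ₑ) ≤ ENNReal.ofReal ε

end Pool.Agent.Run7.h148.AX
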